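import Pool.Agent.Zk9.GK.Gp

/-!
# The action on the conjugacy classes of clique subgroups
-/

set_option autoImplicit false

namespace Pool.Agent.Zk9.GK

open Q30.FJ Pool.Agent.Helper705_SA Pool.Agent.Helper270.Tree

/-! ### property (FA) of products -/

theorem FA.sup {G : Type} [Group G] {H1 H2 : Subgroup G} (h1 : FA H1) (h2 : FA H2)
    (hc : ∀ a ∈ H1, ∀ b ∈ H2, a * b = b * a) : FA ↥(H1 ⊔ H2) := by
  intro X _ T ht ha hn
  have hact : TreeAct ↥(H1 ⊔ H2) T := ⟨ht, ha, hn⟩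
  have hfix : ∀ (H : Subgroup G) (hH : H ≤ H1 ⊔ H2), FA H →
      ∃ x : X, ∀ g : G, ∀ hg : g ∈ H, (⟨g, hH hg⟩ : ↥(H1 ⊔ H2)) • x = x := by
    intro H hH hF
    let _ : MulAction H X := MulAction.compHom X (Subgroup.inclusion hH)
    obtain ⟨x, hx⟩ := hF X T ht (fun g x y hxy => ha _ x y hxy) (fun g x y hxy => hn _ x y hxy)
    exact ⟨x, fun g hg => hx ⟨g, hg⟩⟩
  obtain ⟨x, hx⟩ := hfix H1 le_sup_left h1
  obtain ⟨y, hy⟩ := hfix H2 le_sup_right h2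
  obtain ⟨z, hz1, hz2⟩ := exists_fixed_in_conv hact
    (fixSet_conv hact {g : ↥(H1 ⊔ H2) | (g : G) ∈ H1}) ⟨x, fun g hg => hx g.1 hg⟩
    {g : ↥(H1 ⊔ H2) | (g : G) ∈ H2} (by
      intro k hk v hv g hg
      have e : g * k = k * g := Subtype.ext (hc g.1 hg k.1 hk)
      rw [← mul_smul, e, mul_smul, hv g hg]) y (fun g hg => hy g.1 hg)
  refine ⟨z, fun g => ?_⟩
  have h3 : H1 ⊔ H2 ≤ (MulAction.stabilizer ↥(H1 ⊔ H2) z).map (H1 ⊔ H2).subtype := by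
    apply sup_le
    · intro a ha'
      exact ⟨⟨a, Subgroup.mem_sup_left ha'⟩, hz1 ⟨a, Subgroup.mem_sup_left ha'⟩ ha', rfl⟩
    · intro a ha'
      exact ⟨⟨a, Subgroup.mem_sup_right ha'⟩, hz2 ⟨a, Subgroup.mem_sup_right ha'⟩ ha', rfl⟩
  obtain ⟨k, hk, hkg⟩ := h3 g.2
  have h4 : k = g := Subtype.ext hkg
  rw [← h4]
  exact hk

section

variable {G : Type} [Group G] {V : Type} {Λ : SimpleGraph V} {A : V → Subgroup G}
  {N : Subgroup G}

theorem FA_AS (h : GProd Λ A N) (hFA : ∀ v, FA (A v)) {M : Set V} (hM : M.Finite)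
    (hc : Λ.IsClique M) : FA (AS A M) := by
  induction M, hM using Set.Finite.induction_on with
  | empty =>
    have h1 : AS A ∅ = ⊥ := by
      rw [eq_bot_iff]
      exact AS_le fun v hv => hv.elim
    rw [h1]
    exact FA.of_finite _
  | @insert v s hv _ ih =>
    have h1 : AS A (insert v s) = A v ⊔ AS A s := by
      apply le_antisymm
      · apply AS_le
        rintro w (rfl | hw)
        · exact le_sup_left
        · exact (le_AS hw).trans le_sup_right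
      · exact sup_le (le_AS (Set.mem_insert _ _)) (AS_mono (Set.subset_insert _ _))
    rw [h1]
    refine FA.sup (hFA v) (ih (hc.subset (Set.subset_insert _ _))) ?_
    intro a ha b hb
    have ha' : a ∈ AS A {v} := le_AS (Set.mem_singleton v) ha
    refine AS_comm (W := {v}) (W' := s) ?_ a ha' b hb
    intro w hw u hu
    rw [Set.mem_singleton_iff] at hw
    subst hw
    exact h.comm w u (hc (Set.mem_insert _ _) (Set.mem_insert_of_mem _ hu)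
      (fun e => hv (e ▸ hu)))

theorem gp_transport (h : GProd Λ A N) {F : Type} [Group F] (f : F →* N)
    (H : ∀ φ : N →* GraphProduct Λ (fun v => A v), Function.Injective φ →
      ∃ Δ : Set V, Λ.IsClique Δ ∧ ∃ q, ∀ x,
        q⁻¹ * (φ.comp f) x * q ∈ GraphProduct.gu Λ (fun v => A v) Δ) :
    ∃ Δ : Set V, Λ.IsClique Δ ∧ ∃ m ∈ N, ∀ x, m * f x * m⁻¹ ∈ AS A Δ := by
  let o : ∀ v, A v →* GraphProduct Λ (fun v => A v) :=
    fun v => GraphProduct.of (H := fun v => A v) Λ v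
  have ho : ∀ v w, Λ.Adj v w → ∀ (a : A v) (b : A w), o v a * o w b = o w b * o v a :=
    fun v w hvw a b => GraphProduct.of_comm (H := fun v => A v) hvw a b
  obtain ⟨φ, hφ⟩ := h.univ (GraphProduct Λ (fun v => A v)) o ho
  obtain ⟨ψ, hψ⟩ : ∃ ψ : GraphProduct Λ (fun v => A v) →* N,
      ∀ v (a : A v), (ψ (GraphProduct.of Λ v a) : G) = a := by
    refine ⟨GraphProduct.lift (fun v => Subgroup.inclusion (h.le v)) ?_, ?_⟩
    · intro v w hvw a b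
      exact Subtype.ext (h.comm v w hvw a a.2 b b.2)
    · intro v a
      rw [GraphProduct.lift_of]
      rfl
  have hψφ : ∀ x, ψ (φ x) = x := by
    have h1 : N ≤ ((ψ.comp φ).eqLocus (MonoidHom.id _)).map N.subtype := by
      apply h.gen
      intro v a ha
      refine ⟨⟨a, h.le v ha⟩, ?_, rfl⟩
      show ψ (φ ⟨a, _⟩) = ⟨a, _⟩
      apply Subtype.ext
      have h2 : φ ⟨a, h.le v ha⟩ = GraphProduct.of (H := fun v => A v) Λ v ⟨a, ha⟩ := hφ v ⟨a, ha⟩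
      rw [h2, hψ]
    intro x
    obtain ⟨y, hy, hyx⟩ := h1 x.2
    have h2 : y = x := Subtype.ext hyx
    rw [← h2]
    exact hy
  obtain ⟨Δ, hΔ, q, hq⟩ := H φ (Function.LeftInverse.injective hψφ)
  refine ⟨Δ, hΔ, (ψ q)⁻¹, N.inv_mem (ψ q).2, fun x => ?_⟩
  have h1 : GraphProduct.gu Λ (fun v => A v) Δ ≤ (AS A Δ).comap (N.subtype.comp ψ) := by
    apply GraphProduct.gu_le
    intro v hv a
    show (ψ (GraphProduct.of Λ v a) : G) ∈ AS A Δ
    rw [hψ]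
    exact le_AS hv a.2
  have h2 := h1 (hq x)
  have h3 : (N.subtype.comp ψ) (q⁻¹ * (φ.comp f) x * q) = (ψ q : G)⁻¹ * f x * (ψ q : G)⁻¹⁻¹ := by
    rw [map_mul, map_mul, map_inv, inv_inv]
    show (ψ q : G)⁻¹ * (ψ (φ (f x)) : G) * ψ q = _
    rw [hψφ]
  rw [Subgroup.mem_comap, h3] at h2
  exact h2

theorem fa_conj [Finite V] (h : GProd Λ A N) {F : Type} [Group F] (hF : FA F) (f : F →* N) :
    ∃ Δ : Set V, Λ.IsClique Δ ∧ ∃ m ∈ N, ∀ x, m * f x * m⁻¹ ∈ AS A Δ :=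
  gp_transport h f fun φ _ => gp_fa hF _ Λ (fun v => A v) rfl (φ.comp f)

/-- `g` maps `AS A W` into an `N`-conjugate of `AS A W'` -/
def Cj (N : Subgroup G) (A : V → Subgroup G) (g : G) (W W' : Set V) : Prop :=
  ∃ m ∈ N, ∀ x ∈ AS A W, m * g * x * (m * g)⁻¹ ∈ AS A W'

theorem Cj.mono {g : G} {W W' W'' : Set V} (h1 : Cj N A g W W') (h2 : W' ⊆ W'') :
    Cj N A g W W'' := by
  obtain ⟨m, hm, h⟩ := h1
  exact ⟨m, hm, fun x hx => AS_mono h2 (h x hx)⟩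

theorem Cj.mono_left {g : G} {W W' W'' : Set V} (h1 : Cj N A g W W') (h2 : W'' ⊆ W) :
    Cj N A g W'' W' := by
  obtain ⟨m, hm, h⟩ := h1
  exact ⟨m, hm, fun x hx => h x (AS_mono h2 hx)⟩

theorem Cj.mul [N.Normal] {g g' : G} {W W' W'' : Set V} (h1 : Cj N A g W W')
    (h2 : Cj N A g' W' W'') : Cj N A (g' * g) W W'' := by
  obtain ⟨m, hm, h⟩ := h1
  obtain ⟨m', hm', h'⟩ := h2
  refine ⟨m' * (g' * m * g'⁻¹), N.mul_mem hm' (Subgroup.Normal.conj_mem inferInstance m hm g'), ?_⟩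
  intro x hx
  have h3 := h' _ (h x hx)
  have h4 : m' * g' * (m * g * x * (m * g)⁻¹) * (m' * g')⁻¹ =
      m' * (g' * m * g'⁻¹) * (g' * g) * x * (m' * (g' * m * g'⁻¹) * (g' * g))⁻¹ := by group
  rwa [h4] at h3

theorem Cj_sub (h : GProd Λ A N) (hne : ∀ v, A v ≠ ⊥) {W W' : Set V} (h1 : Cj N A 1 W W') :
    W ⊆ W' := by
  obtain ⟨p, hp⟩ := h.retr
  obtain ⟨m, hm, h1⟩ := h1
  intro v hv
  by_contra hv'
  apply hne v
  rw [Subgroup.eq_bot_iff_forall]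
  intro a ha
  have h2 := h1 a (le_AS hv ha)
  rw [mul_one] at h2
  have h4 : ∀ x : G, ∀ hx : x ∈ AS A W', p v ⟨x, AS_le_N h W' hx⟩ = 1 := by
    intro x hx
    have h5 := AS_hom (A := A) (W := W') ((p v).comp (Subgroup.inclusion (AS_le_N h W'))) 1 (by
      intro w hw b hb
      exact hp.other v w ⟨b, hb⟩ (fun e => hv' (e ▸ hw)))
    exact DFunLike.congr_fun h5 ⟨x, hx⟩
  have h5 := h4 _ h2
  have h6 : (⟨m * a * m⁻¹, AS_le_N h W' h2⟩ : N) = ⟨m, hm⟩ * ⟨a, h.le v ha⟩ * ⟨m, hm⟩⁻¹ := rfl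
  rw [h6, map_mul, map_mul, map_inv] at h5
  have h7 := conj_eq_one_iff.1 h5
  have h8 : p v ⟨a, h.le v ha⟩ = ⟨a, ha⟩ := hp.same v ⟨a, ha⟩
  rw [h8] at h7
  exact congrArg Subtype.val h7

/-- conjugation by an element of `N` into itself is onto -/
theorem self_maps (h : GProd Λ A N) {W : Set V} {m : G} (hm : m ∈ N)
    (h1 : ∀ x ∈ AS A W, m * x * m⁻¹ ∈ AS A W) : Maps m (AS A W) (AS A W) := by
  obtain ⟨ρ, -, hρ⟩ := ret h W
  intro x
  refine ⟨h1 x, fun hx => ?_⟩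
  -- `y = ρ (m⁻¹) (m x m⁻¹) ρ (m)`
  obtain ⟨r, hr⟩ : ∃ r, r = ρ ⟨m, hm⟩ := ⟨_, rfl⟩
  obtain ⟨y, hy⟩ : ∃ y : AS A W, y = r⁻¹ * ⟨m * x * m⁻¹, hx⟩ * r := ⟨_, rfl⟩
  have h2 := h1 y y.2
  have h3 : ρ ⟨m * y * m⁻¹, AS_le_N h W h2⟩ = r * y * r⁻¹ := by
    have h4 : (⟨m * y * m⁻¹, AS_le_N h W h2⟩ : N) =
      ⟨m, hm⟩ * ⟨y, AS_le_N h W y.2⟩ * ⟨m, hm⟩⁻¹ := rfl
    rw [h4, map_mul, map_mul, map_inv, hρ y y.2, ← hr]
  rw [hρ _ h2] at h3
  have h4 : m * y.1 * m⁻¹ = (r * y * r⁻¹).1 := congrArg Subtype.val h3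
  have h5 : r * y * r⁻¹ = ⟨m * x * m⁻¹, hx⟩ := by
    rw [hy]
    group
  rw [h5] at h4
  have h6 : m * y.1 * m⁻¹ = m * x * m⁻¹ := h4
  have h7 := mul_left_cancel (mul_right_cancel h6)
  rw [← h7]
  exact y.2

theorem Cj.maps [N.Normal] (h : GProd Λ A N) {g : G} {W W' : Set V} (h1 : Cj N A g W W')
    (h2 : Cj N A g⁻¹ W' W) : Mv N g (AS A W) (AS A W') := by
  obtain ⟨m, hm, h1⟩ := h1
  obtain ⟨m', hm', h2⟩ := h2
  refine ⟨m, hm, fun x => ⟨h1 x, fun hx => ?_⟩⟩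
  obtain ⟨k, hk⟩ : ∃ k, k = m' * (g⁻¹ * m * g⁻¹⁻¹) := ⟨_, rfl⟩
  have hkN : k ∈ N := by
    rw [hk]
    exact N.mul_mem hm' (Subgroup.Normal.conj_mem inferInstance m hm g⁻¹)
  have hkx : ∀ x : G, m' * g⁻¹ * (m * g * x * (m * g)⁻¹) * (m' * g⁻¹)⁻¹ = k * x * k⁻¹ := by
    intro x
    rw [hk]
    group
  have h3 : ∀ x ∈ AS A W, k * x * k⁻¹ ∈ AS A W := by
    intro x hx
    rw [← hkx]
    exact h2 _ (h1 x hx)
  have h4 := h2 _ hx
  rw [hkx] at h4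
  exact (self_maps h hkN h3 x).2 h4

theorem Mv.cj {g : G} {W W' : Set V} (h : Mv N g (AS A W) (AS A W')) : Cj N A g W W' := by
  obtain ⟨m, hm, h⟩ := h
  exact ⟨m, hm, fun x hx => (h x).1 hx⟩

theorem exists_max [Finite V] {Δ : Set V} (h : Λ.IsClique Δ) :
    ∃ M, Δ ⊆ M ∧ Maximal (fun s : Set V => Λ.IsClique s) M :=
  Finite.exists_le_maximal h

/-- every element maps clique subgroups to clique subgroups -/
theorem cj_clique [Finite V] [N.Normal] (h : GProd Λ A N) (hFA : ∀ v, FA (A v)) (g : G)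
    {W : Set V} (hW : Λ.IsClique W) :
    ∃ M, Maximal (fun s : Set V => Λ.IsClique s) M ∧ Cj N A g W M := by
  have hc : ∀ x : AS A W, g * x * g⁻¹ ∈ N := fun x =>
    Subgroup.Normal.conj_mem inferInstance _ (AS_le_N h W x.2) g
  obtain ⟨Δ, hΔ, m, hm, h1⟩ := fa_conj h (FA_AS h hFA W.toFinite hW)
    (MonoidHom.mk' (fun x => (⟨g * x * g⁻¹, hc x⟩ : N)) (by
      intro x y
      apply Subtype.ext
      show g * (x.1 * y.1) * g⁻¹ = g * x * g⁻¹ * (g * y * g⁻¹)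
      group))
  obtain ⟨M, hM, hmax⟩ := exists_max hΔ
  refine ⟨M, hmax, m, hm, fun x hx => AS_mono hM ?_⟩
  have h2 := h1 ⟨x, hx⟩
  have h3 : m * (g * x * g⁻¹) * m⁻¹ = m * g * x * (m * g)⁻¹ := by group
  rw [← h3]
  exact h2

/-- the maximal cliques are permuted -/
theorem max_perm [Finite V] [N.Normal] (h : GProd Λ A N) (hne : ∀ v, A v ≠ ⊥)
    (hFA : ∀ v, FA (A v)) (g : G) {M : Set V} (hM : Maximal (fun s : Set V => Λ.IsClique s) M) :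
    ∃ M', Maximal (fun s : Set V => Λ.IsClique s) M' ∧ Mv N g (AS A M) (AS A M') := by
  obtain ⟨M', hM', h1⟩ := cj_clique h hFA g hM.1
  obtain ⟨M'', hM'', h2⟩ := cj_clique h hFA g⁻¹ hM'.1
  have h3 := h1.mul h2
  rw [inv_mul_cancel] at h3
  have h4 := Cj_sub h hne h3
  have h5 : M = M'' := hM.eq_of_le hM''.1 h4
  subst h5
  exact ⟨M', hM', h1.maps h h2⟩

end

end Pool.Agent.Zk9.GK
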