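import Pool.Agent.Zk9.GK.Fin

/-!
# Kernels which are graph products over graphs with finite components, times a free factor
-/

set_option autoImplicit false

namespace Pool.Agent.Zk9.GK

open Q30.FJ Pool.Agent.Y110.FJ Pool.Agent.Helper705_SA Pool.Agent.Helper270.Tree
open Pool.Agent.Y462.SS (Closed)

/-- a nontrivial element fixes at most one vertex if the edge stabilizers are trivial -/
theorem fix_unique {F X : Type} [Group F] [MulAction F X] {T : SimpleGraph X} (h : TreeAct F T)
    (he : ∀ x y, T.Adj x y → ∀ g : F, g • x = x → g • y = y → g = 1) {k : F} (hk : k ≠ 1)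
    {y z : X} (hy : k • y = y) (hz : k • z = z) : y = z := by
  by_contra hyz
  obtain ⟨p, hp⟩ := h.isTree.connected.exists_walk_length_eq_dist y z
  cases p with
  | nil => exact hyz rfl
  | @cons _ w _ hadj q =>
    have h1 : T.dist y w = 1 := SimpleGraph.dist_eq_one_iff_adj.2 hadj
    have h2 : T.dist w z ≤ q.length := SimpleGraph.dist_le q
    rw [SimpleGraph.Walk.length_cons] at hp
    have h3 : T.dist y z ≤ T.dist y w + T.dist w z := h.isTree.connected.dist_triangle
    have h4 : w ∈ FixSet X ({k} : Set F) := by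
      refine fixSet_conv h {k} y ?_ z ?_ w (by omega)
      · intro a ha
        rw [Set.mem_singleton_iff.1 ha]
        exact hy
      · intro a ha
        rw [Set.mem_singleton_iff.1 ha]
        exact hz
    exact hk (he y w hadj k hy (h4 k rfl))

section

variable {G : Type} [Group G] {V : Type} {Λ : SimpleGraph V} {A : V → Subgroup G}

/-- the graph product over a connected graph fixes a vertex -/
theorem FI_AS (hcomm : ∀ v w, Λ.Adj v w → ∀ a ∈ A v, ∀ b ∈ A w, a * b = b * a)
    (hne : ∀ v, A v ≠ ⊥) (hFA : ∀ v, FA (A v)) (c : Λ.ConnectedComponent) :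
    FI (AS A c.supp) := by
  intro X _ T hact he
  obtain ⟨v0, hv0⟩ := c.nonempty_supp
  have hfix : ∀ v (hv : v ∈ c.supp), ∃ x : X, ∀ a (ha : a ∈ A v),
      (⟨a, le_AS hv ha⟩ : AS A c.supp) • x = x := by
    intro v hv
    let _ : MulAction (A v) X := MulAction.compHom X (Subgroup.inclusion (le_AS (A := A) hv))
    obtain ⟨x, hx⟩ := hFA v X T hact.isTree (fun g x y hxy => hact.adj _ x y hxy)
      (fun g x y hxy => hact.noInv _ x y hxy)
    exact ⟨x, fun a ha => hx ⟨a, ha⟩⟩
  have huniq : ∀ v (hv : v ∈ c.supp) (x y : X),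
      (∀ a (ha : a ∈ A v), (⟨a, le_AS hv ha⟩ : AS A c.supp) • x = x) →
      (∀ a (ha : a ∈ A v), (⟨a, le_AS hv ha⟩ : AS A c.supp) • y = y) → x = y := by
    intro v hv x y hx hy
    obtain ⟨⟨a, ha⟩, ha1⟩ := Subgroup.ne_bot_iff_exists_ne_one.1 (hne v)
    refine fix_unique hact he (k := ⟨a, le_AS hv ha⟩) ?_ (hx a ha) (hy a ha)
    intro e
    have e' : (⟨a, le_AS hv ha⟩ : AS A c.supp).1 = 1 := congrArg Subtype.val e
    exact ha1 (Subtype.ext e')
  obtain ⟨x, hx⟩ := hfix v0 hv0
  refine ⟨x, ?_⟩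
  have hall : ∀ v, Λ.Reachable v0 v → ∀ hv : v ∈ c.supp, ∀ a (ha : a ∈ A v),
      (⟨a, le_AS hv ha⟩ : AS A c.supp) • x = x := by
    intro v hv
    rw [SimpleGraph.reachable_iff_reflTransGen] at hv
    induction hv with
    | refl => exact fun hv a ha => hx a ha
    | @tail b d _ hbd ih =>
      intro hd
      have hb : b ∈ c.supp := by
        have h1 : Λ.connectedComponentMk d = c := hd
        show Λ.connectedComponentMk b = c
        rw [← h1]
        exact SimpleGraph.ConnectedComponent.sound hbd.reachable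
      have ihb := ih hb
      intro a ha
      refine (huniq b hb x _ ihb ?_).symm
      intro a' ha'
      have e : (⟨a', le_AS hb ha'⟩ : AS A c.supp) * ⟨a, le_AS hd ha⟩ =
          ⟨a, le_AS hd ha⟩ * ⟨a', le_AS hb ha'⟩ := Subtype.ext (hcomm b d hbd a' ha' a ha)
      rw [← mul_smul, e, mul_smul, ihb a' ha']
  intro g
  have h3 : AS A c.supp ≤ (MulAction.stabilizer (AS A c.supp) x).map (AS A c.supp).subtype := by
    apply AS_le
    intro v hv a ha
    have hr : Λ.Reachable v0 v := by
      have h1 : Λ.connectedComponentMk v = c := hv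
      have h2 : Λ.connectedComponentMk v0 = c := hv0
      exact SimpleGraph.ConnectedComponent.exact (h2.trans h1.symm)
    exact ⟨⟨a, le_AS hv ha⟩, hall v hr hv a ha, rfl⟩
  obtain ⟨k, hk, hkg⟩ := h3 g.2
  have h4 : k = g := Subtype.ext hkg
  rw [← h4]
  exact hk

end

section

variable {G : Type} [Group G] {I : Type} {B : I → Subgroup G} {N : Subgroup G}

theorem AS_mem_finite (h : GProd (⊥ : SimpleGraph I) B N) {x : G} (hx : x ∈ N) :
    ∃ s : Set I, s.Finite ∧ x ∈ AS B s := by
  have hdir : Directed (· ≤ ·) (fun s : Finset I => AS B (s : Set I)) := by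
    classical
    intro s t
    refine ⟨s ∪ t, AS_mono ?_, AS_mono ?_⟩
    · intro i hi
      exact Finset.mem_union_left _ hi
    · intro i hi
      exact Finset.mem_union_right _ hi
  have h1 : N ≤ ⨆ s : Finset I, AS B (s : Set I) := by
    apply h.gen
    intro v
    refine le_trans ?_ (le_iSup _ {v})
    exact le_AS (by simp)
  obtain ⟨s, hs⟩ := (Subgroup.mem_iSup_of_directed hdir).1 (h1 hx)
  exact ⟨s, s.finite_toSet, hs⟩

theorem fi_conj (h : GProd (⊥ : SimpleGraph I) B N) {F : Type} [Group F] (hF : FI F)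
    (hfg : Group.FG F) (f : F →* N) (hf : Function.Injective f) :
    ∃ Δ : Set I, (⊥ : SimpleGraph I).IsClique Δ ∧ ∃ m ∈ N, ∀ x, m * f x * m⁻¹ ∈ AS B Δ := by
  obtain ⟨E, hE, hEf⟩ := Group.fg_iff.1 hfg
  have h1 : ∀ x : F, ∃ s : Set I, s.Finite ∧ (f x : G) ∈ AS B s := fun x =>
    AS_mem_finite h (f x).2
  choose σ hσ1 hσ2 using h1
  obtain ⟨s, hs⟩ : ∃ s, s = ⋃ x ∈ E, σ x := ⟨_, rfl⟩
  have hsf : s.Finite := by
    rw [hs]
    exact hEf.biUnion fun x _ => hσ1 x
  have hfs : ∀ x, (f x : G) ∈ AS B s := by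
    intro x
    have h2 : Subgroup.closure E ≤ (AS B s).comap (N.subtype.comp f) := by
      rw [Subgroup.closure_le]
      intro y hy
      refine AS_mono ?_ (hσ2 y)
      rw [hs]
      exact Set.subset_biUnion_of_mem hy
    rw [hE] at h2
    exact h2 (Subgroup.mem_top x)
  obtain ⟨f', hf'⟩ : ∃ f' : F →* AS B s, ∀ x, (f' x : G) = f x := by
    refine ⟨MonoidHom.mk' (fun x => ⟨f x, hfs x⟩) ?_, fun x => rfl⟩
    intro x y
    apply Subtype.ext
    show (f (x * y) : G) = f x * f y
    rw [map_mul]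
    rfl
  have hfi' : Function.Injective f' := by
    intro x y hxy
    apply hf
    apply Subtype.ext
    rw [← hf', ← hf', hxy]
  have := hsf.to_subtype
  have hind : (⊥ : SimpleGraph I).induce s = ⊥ := by
    ext a b
    exact Iff.rfl
  obtain ⟨Δ, hΔ, m, hm, h2⟩ := gp_transport (restrict h s) f' fun φ hφ =>
    gp_fi hF _ _ hind (fun w : s => B w) rfl (φ.comp f') (hφ.comp hfi')
  refine ⟨Subtype.val '' Δ, ?_, m, AS_le_N h s hm, fun x => ?_⟩
  · rintro _ ⟨i, hi, rfl⟩ _ ⟨j, hj, rfl⟩ hij
    exact (hΔ hi hj (fun e => hij (congrArg Subtype.val e)))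
  · have h3 : AS (fun w : s => B w) Δ ≤ AS B (Subtype.val '' Δ) := by
      apply AS_le
      intro i hi
      exact le_AS (A := B) (Set.mem_image_of_mem Subtype.val hi)
    have h4 := h3 (h2 x)
    rw [hf'] at h4
    exact h4

end

end Pool.Agent.Zk9.GK
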