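import Pool.Agent.Helper705_SA.GP
import Pool.Agent.Helper705_SA.TreeSets
import Pool.Agent.Zk9.PP.Acy

/-!
# Serre's property (FA) and maps to graph products
-/

set_option autoImplicit false

namespace Pool.Agent.Zk9.GK

open SimpleGraph Pool.Agent.Helper705_SA Pool.Agent.Helper270.Tree

/-- Serre's property (FA): every action on a tree by automorphisms without inversions has a fixed
vertex. -/
def FA (F : Type) [Group F] : Prop :=
  ∀ (X : Type) [MulAction F X] (T : SimpleGraph X), T.IsTree →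
    (∀ (g : F) (x y : X), T.Adj x y → T.Adj (g • x) (g • y)) →
    (∀ (g : F) (x y : X), T.Adj x y → ¬ (g • x = y ∧ g • y = x)) →
    ∃ x : X, ∀ g : F, g • x = x

/-- Every action on a tree without inversions and with trivial edge stabilizers has a fixed
vertex. -/
def FI (F : Type) [Group F] : Prop :=
  ∀ (X : Type) [MulAction F X] (T : SimpleGraph X), TreeAct F T →
    (∀ x y, T.Adj x y → ∀ g : F, g • x = x → g • y = y → g = 1) → ∃ x : X, ∀ g : F, g • x = x

theorem FA.of_finite (F : Type) [Group F] [Finite F] : FA F :=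
  fun _ _ _ h1 h2 h3 => exists_fixed_of_finite ⟨h1, h2, h3⟩

theorem FA.toFI {F : Type} [Group F] (h : FA F) : FI F :=
  fun X _ T hT _ => h X T hT.isTree hT.adj hT.noInv

theorem FA.of_surjective {F F' : Type} [Group F] [Group F'] (h : FA F) (f : F →* F')
    (hf : Function.Surjective f) : FA F' := by
  intro X _ T h1 h2 h3
  let _ : MulAction F X := MulAction.compHom X f
  obtain ⟨x, hx⟩ := h X T h1 (fun g x y hxy => h2 (f g) x y hxy)
    (fun g x y hxy => h3 (f g) x y hxy)
  refine ⟨x, fun g => ?_⟩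
  obtain ⟨g, rfl⟩ := hf g
  exact hx g

theorem FI.of_equiv {F F' : Type} [Group F] [Group F'] (h : FI F) (f : F ≃* F') : FI F' := by
  intro X _ T h1 h2
  let _ : MulAction F X := MulAction.compHom X f.toMonoidHom
  obtain ⟨x, hx⟩ := h X T ⟨h1.isTree, fun g x y hxy => h1.adj (f g) x y hxy,
    fun g x y hxy => h1.noInv (f g) x y hxy⟩ (fun x y hxy g hgx hgy => by
      have h3 := h2 x y hxy (f g) hgx hgy
      exact f.injective (h3.trans (map_one f).symm))
  refine ⟨x, fun g => ?_⟩
  obtain ⟨g, rfl⟩ := f.surjective g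
  exact hx g

/-! ### the line -/

/-- the line -/
def lineZ : SimpleGraph ℤ where
  Adj x y := x = y + 1 ∨ y = x + 1
  symm := ⟨fun _ _ h => h.symm⟩
  loopless := ⟨fun x h => by rcases h with h | h <;> omega⟩

theorem lineZ_isTree : lineZ.IsTree := by
  refine ⟨?_, ?_⟩
  · have h0 : ∀ x : ℤ, lineZ.Reachable 0 x := by
      intro x
      induction x using Int.induction_on with
      | zero => exact Reachable.refl _
      | succ i hi => exact hi.trans (Adj.reachable (show lineZ.Adj _ _ from Or.inr rfl))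
      | pred i hi => exact hi.trans (Adj.reachable (show lineZ.Adj _ _ from Or.inl (by ring)))
    rw [connected_iff]
    exact ⟨fun x y => (h0 x).symm.trans (h0 y), ⟨0⟩⟩
  · apply Pool.Agent.Zk9.PP.acyclic_of_level lineZ (fun x => x.natAbs)
    · rintro x y (h | h) <;> simp only [ne_eq] <;> omega
    · rintro v u u' (h | h) (h' | h') h1 h2
      · omega
      · omega
      · omega
      · omega

theorem FA.hom_int {F : Type} [Group F] (h : FA F) (f : F →* Multiplicative ℤ) (x : F) :
    f x = 1 := by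
  let _ : MulAction F ℤ :=
    { smul := fun g n => Multiplicative.toAdd (f g) + n
      one_smul := fun n => by
        show Multiplicative.toAdd (f 1) + n = n
        rw [map_one]
        exact zero_add n
      mul_smul := fun g g' n => by
        show Multiplicative.toAdd (f (g * g')) + n =
          Multiplicative.toAdd (f g) + (Multiplicative.toAdd (f g') + n)
        rw [map_mul, ← add_assoc]
        rfl }
  have hs : ∀ (g : F) (n : ℤ), g • n = Multiplicative.toAdd (f g) + n := fun _ _ => rfl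
  obtain ⟨n, hn⟩ := h ℤ lineZ lineZ_isTree (by
    rintro g x y (h | h)
    · left
      rw [hs, hs, h, add_assoc]
    · right
      rw [hs, hs, h, add_assoc]) (by
    rintro g x y (h | h) ⟨h1, h2⟩
    · rw [hs] at h1 h2
      omega
    · rw [hs] at h1 h2
      omega)
  have h1 := hn x
  rw [hs] at h1
  have h2 : Multiplicative.toAdd (f x) = 0 := by omega
  exact h2

/-! ### amalgams -/

theorem amalgam_fix {F P : Type} [Group F] [Group P] (f : F →* P) (A B : Subgroup P)
    (h : IsAmalgam A B) (hF : FA F ∨ (FI F ∧ Function.Injective f ∧ A ⊓ B = ⊥)) :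
    (∃ p, ∀ x, p⁻¹ * f x * p ∈ A) ∨ (∃ p, ∀ x, p⁻¹ * f x * p ∈ B) := by
  let _ : MulAction F ((P ⧸ A) ⊕ (P ⧸ B)) := MulAction.compHom _ f
  have hs : ∀ (g : F) (v : (P ⧸ A) ⊕ (P ⧸ B)), g • v = f g • v := fun _ _ => rfl
  have hact : TreeAct F (cosetGraph A B) := by
    refine ⟨cosetGraph_isTree A B h, ?_, ?_⟩
    · rintro g v w ⟨k, ⟨rfl, rfl⟩ | ⟨rfl, rfl⟩⟩
      · exact ⟨f g * k, Or.inl ⟨rfl, rfl⟩⟩
      · exact ⟨f g * k, Or.inr ⟨rfl, rfl⟩⟩
    · rintro g v w ⟨k, ⟨rfl, rfl⟩ | ⟨rfl, rfl⟩⟩ ⟨h1, h2⟩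
      · cases h1
      · cases h1
  have hin : ∀ (D : Subgroup P) (k p : P), (QuotientGroup.mk (p * k) : P ⧸ D) = QuotientGroup.mk k →
      k⁻¹ * p * k ∈ D := by
    intro D k p hk
    rw [eq_comm, QuotientGroup.eq] at hk
    rwa [← mul_assoc] at hk
  have hfix : ∃ v : (P ⧸ A) ⊕ (P ⧸ B), ∀ g : F, g • v = v := by
    rcases hF with hF | ⟨hF, hf, hAB⟩
    · exact hF _ _ hact.isTree hact.adj hact.noInv
    · refine hF _ _ hact ?_
      have key : ∀ (k : P) (g : F), f g • (QuotientGroup.mk k : P ⧸ A) = QuotientGroup.mk k →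
          f g • (QuotientGroup.mk k : P ⧸ B) = QuotientGroup.mk k → g = 1 := by
        intro k g h1 h2
        have h3 : k⁻¹ * f g * k ∈ A ⊓ B := ⟨hin A k _ h1, hin B k _ h2⟩
        rw [hAB, Subgroup.mem_bot] at h3
        have h4 : f g = k * (k⁻¹ * f g * k) * k⁻¹ := by group
        rw [h3, mul_one, mul_inv_cancel] at h4
        exact hf (h4.trans (map_one f).symm)
      rintro x y ⟨k, ⟨rfl, rfl⟩ | ⟨rfl, rfl⟩⟩ g h1 h2
      · exact key k g (Sum.inl_injective h1) (Sum.inr_injective h2)
      · exact key k g (Sum.inl_injective h2) (Sum.inr_injective h1)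
  obtain ⟨v, hv⟩ := hfix
  rcases v with v | v
  · left
    obtain ⟨k, rfl⟩ := QuotientGroup.mk_surjective v
    exact ⟨k, fun x => hin A k _ (Sum.inl_injective (hv x))⟩
  · right
    obtain ⟨k, rfl⟩ := QuotientGroup.mk_surjective v
    exact ⟨k, fun x => hin B k _ (Sum.inr_injective (hv x))⟩

/-! ### graph products -/

open GraphProduct

theorem gu_univ {ι : Type} {Γ : SimpleGraph ι} {H : ι → Type} [∀ i, Group (H i)]
    (z : GraphProduct Γ H) : z ∈ gu Γ H Set.univ :=
  mem_of_forall _ (fun _ x => of_mem_gu (Set.mem_univ _) x) z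

theorem gp_step {F : Type} [Group F] {ι : Type} {Γ : SimpleGraph ι} {H : ι → Type}
    [∀ i, Group (H i)] (A : Set ι) (f : F →* GraphProduct Γ H) (p : GraphProduct Γ H)
    (hp : ∀ x, p⁻¹ * f x * p ∈ gu Γ H A)
    (ih : ∀ f' : F →* GraphProduct (Γ.induce A) (fun i : A => H i),
      (Function.Injective f → Function.Injective f') →
      ∃ Δ : Set A, (Γ.induce A).IsClique Δ ∧
        ∃ q, ∀ x, q⁻¹ * f' x * q ∈ gu (Γ.induce A) (fun i : A => H i) Δ) :
    ∃ Δ : Set ι, Γ.IsClique Δ ∧ ∃ q, ∀ x, q⁻¹ * f x * q ∈ gu Γ H Δ := by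
  obtain ⟨f1, hf1⟩ : ∃ f1 : F →* gu Γ H A, ∀ x, (f1 x : GraphProduct Γ H) = p⁻¹ * f x * p := by
    refine ⟨MonoidHom.mk' (fun x => ⟨_, hp x⟩) ?_, fun x => rfl⟩
    intro x y
    apply Subtype.ext
    show p⁻¹ * f (x * y) * p = p⁻¹ * f x * p * (p⁻¹ * f y * p)
    rw [map_mul]
    group
  obtain ⟨f2, hf2⟩ : ∃ f2 : F →* GraphProduct (Γ.induce A) (fun i : A => H i),
      ∀ x, sub Γ H A (f2 x) = p⁻¹ * f x * p := by
    refine ⟨(guEquiv A).symm.toMonoidHom.comp f1, fun x => ?_⟩
    have h1 : ((guEquiv A) ((guEquiv A).symm (f1 x)) : GraphProduct Γ H) = f1 x := by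
      rw [MulEquiv.apply_symm_apply]
    rw [← hf1, ← h1]
    rfl
  obtain ⟨Δ, hΔ, q, hq⟩ := ih f2 (fun hf x y hxy => by
    have h1 := congrArg (sub Γ H A) hxy
    rw [hf2, hf2] at h1
    exact hf (mul_left_cancel (mul_right_cancel h1)))
  refine ⟨Subtype.val '' Δ, ?_, p * sub Γ H A q, fun x => ?_⟩
  · rintro _ ⟨i, hi, rfl⟩ _ ⟨j, hj, rfl⟩ hij
    exact hΔ hi hj (fun e => hij (congrArg Subtype.val e))
  · have h1 : (p * sub Γ H A q)⁻¹ * f x * (p * sub Γ H A q) =
        sub Γ H A (q⁻¹ * f2 x * q) := by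
      rw [map_mul, map_mul, map_inv, hf2]
      group
    rw [h1]
    have h2 : gu (Γ.induce A) (fun i : A => H i) Δ ≤ (gu Γ H (Subtype.val '' Δ)).comap
        (sub Γ H A) := by
      apply gu_le
      intro i hi x
      rw [Subgroup.mem_comap, sub_of]
      exact of_mem_gu (Set.mem_image_of_mem Subtype.val hi) x
    exact h2 (hq x)

/-- a map from a group with property (FA) to a graph product is conjugate to a map to the product
of the vertex groups of a clique -/
theorem gp_fa {F : Type} [Group F] (hF : FA F) (n : ℕ) : ∀ {ι : Type} [Finite ι]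
    (Γ : SimpleGraph ι) (H : ι → Type) [∀ i, Group (H i)], Nat.card ι = n →
    ∀ f : F →* GraphProduct Γ H,
    ∃ Δ : Set ι, Γ.IsClique Δ ∧ ∃ q, ∀ x, q⁻¹ * f x * q ∈ gu Γ H Δ := by
  induction n using Nat.strong_induction_on with
  | _ n ih =>
    intro ι _ Γ H _ hn f
    by_cases hc : Γ.IsClique Set.univ
    · exact ⟨Set.univ, hc, 1, fun x => gu_univ _⟩
    · rw [IsClique, Set.Pairwise] at hc
      push Not at hc
      obtain ⟨v, -, w, -, hvw, hadj⟩ := hc
      have ham : IsAmalgam (gu Γ H {v}ᶜ) (gu Γ H {w}ᶜ) := by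
        apply isAmalgam
        · intro i
          by_cases hi : i = v
          · right
            subst hi
            exact hvw
          · left
            exact hi
        · intro i j hi hj
          rw [Set.notMem_compl_iff, Set.mem_singleton_iff] at hi hj
          subst hi hj
          exact fun e => hadj e.symm
      have hsub : ∀ u : ι, Nat.card ↥({u}ᶜ : Set ι) < n := by
        intro u
        rw [← hn]
        exact Finite.card_subtype_lt (x := u) (fun h => h rfl)
      rcases amalgam_fix f _ _ ham (Or.inl hF) with ⟨p, hp⟩ | ⟨p, hp⟩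
      · exact gp_step _ f p hp (fun f' _ => ih _ (hsub v) _ _ rfl f')
      · exact gp_step _ f p hp (fun f' _ => ih _ (hsub w) _ _ rfl f')

/-- injective maps to free products -/
theorem gp_fi {F : Type} [Group F] (hF : FI F) (n : ℕ) : ∀ {ι : Type} [Finite ι]
    (Γ : SimpleGraph ι) (_ : Γ = ⊥) (H : ι → Type) [∀ i, Group (H i)], Nat.card ι = n →
    ∀ f : F →* GraphProduct Γ H, Function.Injective f →
    ∃ Δ : Set ι, Γ.IsClique Δ ∧ ∃ q, ∀ x, q⁻¹ * f x * q ∈ gu Γ H Δ := by
  induction n using Nat.strong_induction_on with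
  | _ n ih =>
    intro ι _ Γ hΓ H _ hn f hf
    by_cases hc : Γ.IsClique Set.univ
    · exact ⟨Set.univ, hc, 1, fun x => gu_univ _⟩
    · rw [IsClique, Set.Pairwise] at hc
      push Not at hc
      obtain ⟨v, -, w, -, hvw, hadj⟩ := hc
      have ham : IsAmalgam (gu Γ H {v}) (gu Γ H {v}ᶜ) := by
        apply isAmalgam
        · intro i
          exact Classical.em _
        · intro i j _ _ e
          rw [hΓ] at e
          exact e
      have hbot : gu Γ H {v} ⊓ gu Γ H {v}ᶜ = ⊥ := by
        rw [gu_inf, Set.inter_compl_self, eq_bot_iff]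
        apply gu_le
        rintro i ⟨⟩
      have h1 : Nat.card ↥({v}ᶜ : Set ι) < n := by
        rw [← hn]
        exact Finite.card_subtype_lt (x := v) (fun h => h rfl)
      have h2 : Nat.card ↥({v} : Set ι) < n := by
        rw [← hn]
        exact Finite.card_subtype_lt (x := w) (fun h => hvw h.symm)
      have hind : ∀ A : Set ι, Γ.induce A = ⊥ := by
        intro A
        subst hΓ
        ext a b
        exact Iff.rfl
      rcases amalgam_fix f _ _ ham (Or.inr ⟨hF, hf, hbot⟩) with ⟨p, hp⟩ | ⟨p, hp⟩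
      · exact gp_step _ f p hp (fun f' hf' => ih _ h2 _ (hind _) _ rfl f' (hf' hf))
      · exact gp_step _ f p hp (fun f' hf' => ih _ h1 _ (hind _) _ rfl f' (hf' hf))

end Pool.Agent.Zk9.GK
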