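import Pool.Agent.Zk9.GK.Cj

/-!
# Kernels which are graph products over finite graphs
-/

set_option autoImplicit false

namespace Pool.Agent.Zk9.GK

open Q30.FJ Pool.Agent.Y110.FJ
open Pool.Agent.Y462.SS (Closed)

variable {C : ∀ (G : Type) [Group G], Prop}

/-- every automorphism is realized by a conjugation in a group in the class -/
def Good (C : ∀ (G : Type) [Group G], Prop) (H : Type) [Group H] : Prop :=
  ∀ φ : MulAut H, ∃ (P : Type) (_ : Group P) (f : H →* P) (p : P), C P ∧ Function.Injective f ∧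
    ∀ x, f (φ x) = p * f x * p⁻¹

theorem Good.of_equiv {H H' : Type} [Group H] [Group H'] (h : Good C H) (e : H ≃* H') :
    Good C H' := by
  intro φ
  obtain ⟨P, _, f, p, hP, hf, hfp⟩ := h ((e.trans φ).trans e.symm)
  refine ⟨P, inferInstance, f.comp e.symm.toMonoidHom, p, hP, hf.comp e.symm.injective, ?_⟩
  intro x
  have h1 := hfp (e.symm x)
  show f (e.symm (φ x)) = p * f (e.symm x) * p⁻¹
  rw [← h1]
  show f (e.symm (φ x)) = f (e.symm (φ (e (e.symm x))))
  rw [e.apply_symm_apply]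

theorem Good.cr {G : Type} [Group G] {A : Subgroup G} (h : Good C A) (g : G)
    (hg : Maps g A A) : CR C g A := by
  let φ : MulAut A :=
    { toFun := fun x => ⟨g * x * g⁻¹, (hg x).1 x.2⟩
      invFun := fun x => ⟨g⁻¹ * x * g, (hg _).2 (by
        have : g * (g⁻¹ * (x : G) * g) * g⁻¹ = x := by group
        rw [this]
        exact x.2)⟩
      left_inv := fun x => Subtype.ext (by
        show g⁻¹ * (g * (x : G) * g⁻¹) * g = x
        group)
      right_inv := fun x => Subtype.ext (by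
        show g * (g⁻¹ * (x : G) * g) * g⁻¹ = x
        group)
      map_mul' := fun x y => Subtype.ext (by
        show g * ((x : G) * y) * g⁻¹ = g * x * g⁻¹ * (g * y * g⁻¹)
        group) }
  obtain ⟨P, _, f, p, hP, hf, hfp⟩ := h φ
  refine ⟨P, inferInstance, f, p, hP, hf, ?_⟩
  intro a a' haa
  rw [← hfp]
  congr 1
  exact Subtype.ext haa

theorem finite_mem (hC : Closed C) (H : Type) [Group H] [Finite H] : C H := by
  refine hC.finiteIndex H ⊥ ?_ ?_
  · constructor
    rw [Subgroup.index_bot]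
    exact Nat.card_pos.ne'
  · refine hC.of_injective _ (Multiplicative ℤ) 1 ?_ hC.int
    rw [injective_iff_map_eq_one]
    intro x _
    exact Subtype.ext (Subgroup.mem_bot.1 x.2)

theorem Good.of_finite (hC : Closed C) (H : Type) [Group H] [Finite H] : Good C H := by
  intro φ
  have h1 : Finite (MulAut H) := Finite.of_injective (fun (f : MulAut H) (x : H) => f x)
    (fun f g h => MulEquiv.ext fun x => congrFun h x)
  have h2 : Finite (H ⋊[MonoidHom.id (MulAut H)] MulAut H) :=
    Finite.of_injective (fun x => (x.left, x.right)) (by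
      rintro ⟨a, b⟩ ⟨c, d⟩ h
      have h3 := congrArg Prod.fst h
      have h4 := congrArg Prod.snd h
      exact SemidirectProduct.ext h3 h4)
  refine ⟨H ⋊[MonoidHom.id (MulAut H)] MulAut H, inferInstance, SemidirectProduct.inl,
    SemidirectProduct.inr φ, finite_mem hC _, SemidirectProduct.inl_injective, ?_⟩
  intro x
  have h3 := SemidirectProduct.inl_aut (φ := MonoidHom.id (MulAut H)) φ x
  rw [MonoidHom.id_apply] at h3
  rw [h3, map_inv]

section

variable {G : Type} [Group G] {V : Type} {Λ : SimpleGraph V} {A : V → Subgroup G}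
  {N : Subgroup G}

theorem retr_other {p : ∀ v, N →* A v} (h : GProd Λ A N) (hp : Retr A N p) {W : Set V} {v : V}
    (hv : v ∉ W) {x : G} (hx : x ∈ AS A W) (hxN : x ∈ N) : p v ⟨x, hxN⟩ = 1 := by
  have h5 := AS_hom (A := A) (W := W) ((p v).comp (Subgroup.inclusion (AS_le_N h W))) 1 (by
    intro w hw b hb
    exact hp.other v w ⟨b, hb⟩ (fun e => hv (e ▸ hw)))
  exact DFunLike.congr_fun h5 ⟨x, hx⟩

/-- the closed neighbourhood -/
def cn (Λ : SimpleGraph V) (v : V) : Set V := {u | u = v ∨ Λ.Adj v u}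

theorem self_cn (v : V) : v ∈ cn Λ v := Or.inl rfl

theorem exists_cn_max [Finite V] [Nonempty V] (Λ : SimpleGraph V) :
    ∃ v0, ∀ w, cn Λ v0 ⊆ cn Λ w → cn Λ w = cn Λ v0 := by
  obtain ⟨v0, hv0⟩ := Finite.exists_max (fun v => (cn Λ v).ncard)
  exact ⟨v0, fun w hw => (Set.eq_of_subset_of_ncard_le hw (hv0 w)).symm⟩

/-- the vertices with the same closed neighbourhood -/
def cls (Λ : SimpleGraph V) (v0 : V) : Set V := {w | cn Λ w = cn Λ v0}

theorem self_cls (v : V) : v ∈ cls Λ v := rfl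

theorem cls_insert {v0 u : V} (hu : u ∈ cn Λ v0) : Λ.IsClique (insert u (cls Λ v0)) := by
  have h1 : ∀ s ∈ cls Λ v0, ∀ t ∈ cn Λ v0, s ≠ t → Λ.Adj s t := by
    intro s hs t ht hst
    have h2 : cn Λ s = cn Λ v0 := hs
    rw [← h2] at ht
    rcases ht with ht | ht
    · exact absurd ht.symm hst
    · exact ht
  have h2 : ∀ s ∈ cls Λ v0, s ∈ cn Λ v0 := by
    intro s hs
    have h2 : cn Λ s = cn Λ v0 := hs
    rw [← h2]
    exact self_cn s
  rintro s (rfl | hs) t (rfl | ht) hst
  · exact absurd rfl hst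
  · exact (h1 t ht s hu (Ne.symm hst)).symm
  · exact h1 s hs t hu hst
  · exact h1 s hs t (h2 t ht) hst

theorem star_mv [Finite V] [N.Normal] (h : GProd Λ A N) {v0 : V}
    (hmax : ∀ w, cn Λ v0 ⊆ cn Λ w → cn Λ w = cn Λ v0)
    (hst : ∀ (g : G) (M : Set V), Maximal (fun s : Set V => Λ.IsClique s) M →
      Mv N g (AS A M) (AS A M)) (g : G) : Mv N g (AS A (cls Λ v0)) (AS A (cls Λ v0)) := by
  obtain ⟨p, hp⟩ := h.retr
  have hS : Λ.IsClique (cls Λ v0) := (cls_insert (self_cn v0)).subset (Set.subset_insert _ _)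
  have h0 : ∀ g : G, Cj N A g (cls Λ v0) (cls Λ v0) := by
    intro g
    obtain ⟨M0, hM0, hM0'⟩ := exists_max hS
    obtain ⟨m, hm, h1⟩ := Mv.cj (hst g M0 hM0')
    refine ⟨m, hm, fun x hx => ?_⟩
    have hy := h1 x (AS_mono hM0 hx)
    refine clique_mem h hp M0.toFinite hM0'.1 _ hy (AS_le_N h _ hy) ?_
    intro v _ hv
    have h2 : ¬ cn Λ v0 ⊆ cn Λ v := fun e => hv (hmax v e)
    rw [Set.not_subset] at h2
    obtain ⟨u, hu, huv⟩ := h2
    obtain ⟨M, hM, hM'⟩ := exists_max (cls_insert hu)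
    have hvM : v ∉ M := by
      intro hvM
      have huM : u ∈ M := hM (Set.mem_insert _ _)
      apply huv
      by_cases e : u = v
      · exact Or.inl e
      · exact Or.inr (hM'.1 hvM huM (Ne.symm e))
    obtain ⟨m', hm', h3⟩ := Mv.cj (hst g M hM')
    have hz := h3 x (AS_mono ((Set.subset_insert _ _).trans hM) hx)
    have hz1 := retr_other h hp hvM hz (AS_le_N h _ hz)
    have e1 : (⟨m * g * x * (m * g)⁻¹, AS_le_N h _ hy⟩ : N) =
        ⟨m * m'⁻¹, N.mul_mem hm (N.inv_mem hm')⟩ *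
          ⟨m' * g * x * (m' * g)⁻¹, AS_le_N h _ hz⟩ *
          ⟨m * m'⁻¹, N.mul_mem hm (N.inv_mem hm')⟩⁻¹ := by
      apply Subtype.ext
      show m * g * x * (m * g)⁻¹ = m * m'⁻¹ * (m' * g * x * (m' * g)⁻¹) * (m * m'⁻¹)⁻¹
      group
    rw [e1, map_mul, map_mul, map_inv, hz1, mul_one, mul_inv_cancel]
  exact (h0 g).maps h (h0 g⁻¹)

/-- the decomposition along a class of vertices -/
theorem star_rel (h : GProd Λ A N) (v0 : V) :
    Rel (⊥ : SimpleGraph Unit) (fun _ => AS A (cls Λ v0)) (AS A (cls Λ v0)ᶜ)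
      (fun _ => AS A (cn Λ v0 \ cls Λ v0)) N := by
  classical
  have hadj : ∀ s ∈ cls Λ v0, ∀ t ∈ cn Λ v0 \ cls Λ v0, Λ.Adj s t := by
    rintro s hs t ⟨ht, hts⟩
    have h2 : cn Λ s = cn Λ v0 := hs
    rw [← h2] at ht
    rcases ht with ht | ht
    · exact absurd (ht ▸ hs) hts
    · exact ht
  refine ⟨fun _ => AS_le_N h _, AS_le_N h _, fun _ => AS_mono fun x hx => hx.2, ?_, ?_, ?_, ?_⟩
  · intro M hM hQ
    apply h.gen
    intro v
    by_cases hv : v ∈ cls Λ v0
    · exact (le_AS hv).trans (hM ())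
    · exact (le_AS (show v ∈ (cls Λ v0)ᶜ from hv)).trans hQ
  · intro v w hvw
    exact hvw.elim
  · intro _
    apply AS_comm
    intro s hs t ht a ha b hb
    exact h.comm s t (hadj s hs t ht) a ha b hb
  · intro H _ f k _ hfk
    let f' : ∀ v, A v →* H := fun v =>
      if hv : v ∈ cls Λ v0 then (f ()).comp (Subgroup.inclusion (le_AS hv))
      else k.comp (Subgroup.inclusion (le_AS (show v ∈ (cls Λ v0)ᶜ from hv)))
    have hf1 : ∀ v (hv : v ∈ cls Λ v0) (a : A v), f' v a = f () ⟨a, le_AS hv a.2⟩ := by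
      intro v hv a
      have : f' v = (f ()).comp (Subgroup.inclusion (le_AS hv)) := dif_pos hv
      rw [this]
      rfl
    have hf2 : ∀ v (hv : v ∉ cls Λ v0) (a : A v),
        f' v a = k ⟨a, le_AS (show v ∈ (cls Λ v0)ᶜ from hv) a.2⟩ := by
      intro v hv a
      have : f' v = k.comp (Subgroup.inclusion (le_AS (show v ∈ (cls Λ v0)ᶜ from hv))) :=
        dif_neg hv
      rw [this]
      rfl
    have hlk : ∀ s ∈ cls Λ v0, ∀ t ∉ cls Λ v0, Λ.Adj s t → t ∈ cn Λ v0 \ cls Λ v0 := by
      intro s hs t ht hst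
      refine ⟨?_, ht⟩
      have h2 : cn Λ s = cn Λ v0 := hs
      rw [← h2]
      exact Or.inr hst
    obtain ⟨φ, hφ⟩ := h.univ H f' (by
      intro v w hvw a b
      by_cases hv : v ∈ cls Λ v0
      · by_cases hw : w ∈ cls Λ v0
        · rw [hf1 v hv, hf1 w hw, ← map_mul, ← map_mul]
          congr 1
          exact Subtype.ext (h.comm v w hvw a a.2 b b.2)
        · rw [hf1 v hv, hf2 w hw]
          exact hfk () ⟨a, le_AS hv a.2⟩ ⟨b, le_AS (hlk v hv w hw hvw) b.2⟩
      · by_cases hw : w ∈ cls Λ v0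
        · rw [hf2 v hv, hf1 w hw]
          exact (hfk () ⟨b, le_AS hw b.2⟩ ⟨a, le_AS (hlk w hw v hv hvw.symm) a.2⟩).symm
        · rw [hf2 v hv, hf2 w hw, ← map_mul, ← map_mul]
          congr 1
          exact Subtype.ext (h.comm v w hvw a a.2 b b.2))
    refine ⟨φ, ?_, ?_⟩
    · intro _
      have h1 := AS_hom (A := A) (W := cls Λ v0) (φ.comp (Subgroup.inclusion (AS_le_N h _))) (f ())
        (fun v hv a ha => (hφ v ⟨a, ha⟩).trans (hf1 v hv ⟨a, ha⟩))
      exact fun a => DFunLike.congr_fun h1 a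
    · have h1 := AS_hom (A := A) (W := (cls Λ v0)ᶜ) (φ.comp (Subgroup.inclusion (AS_le_N h _))) k
        (fun v hv a ha => (hφ v ⟨a, ha⟩).trans (hf2 v hv ⟨a, ha⟩))
      exact fun a => DFunLike.congr_fun h1 a

/-- the stabilizer of the conjugacy classes of the maximal clique subgroups -/
def stabM (Λ : SimpleGraph V) (A : V → Subgroup G) (N : Subgroup G) [N.Normal] : Subgroup G where
  carrier := {g | ∀ M : Set V, Maximal (fun s : Set V => Λ.IsClique s) M →
    Mv N g (AS A M) (AS A M)}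
  one_mem' := fun _ _ => Mv.refl _
  mul_mem' := fun h1 h2 M hM => (h2 M hM).mul (h1 M hM)
  inv_mem' := fun h1 M hM => (h1 M hM).inv

theorem mem_stabM [N.Normal] {g : G} : g ∈ stabM Λ A N ↔
    ∀ M : Set V, Maximal (fun s : Set V => Λ.IsClique s) M → Mv N g (AS A M) (AS A M) := Iff.rfl

theorem stabM_index [Finite V] [N.Normal] (h : GProd Λ A N) (hne : ∀ v, A v ≠ ⊥)
    (hFA : ∀ v, FA (A v)) : (stabM Λ A N).FiniteIndex := by
  have h1 : ∀ (g : G) (M : {M : Set V // Maximal (fun s : Set V => Λ.IsClique s) M}),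
      ∃ M' : {M : Set V // Maximal (fun s : Set V => Λ.IsClique s) M},
        Mv N g (AS A M) (AS A M') := by
    intro g M
    obtain ⟨M', hM', h2⟩ := max_perm h hne hFA g M.2
    exact ⟨⟨M', hM'⟩, h2⟩
  choose F hF using h1
  have h2 : Finite (G ⧸ stabM Λ A N) := by
    refine Finite.of_injective (fun c => F c.out) ?_
    intro c d hcd
    have hcd : F c.out = F d.out := hcd
    rw [← QuotientGroup.out_eq' c, ← QuotientGroup.out_eq' d, QuotientGroup.eq, mem_stabM]
    intro M hM
    have h3 := hF c.out ⟨M, hM⟩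
    have h4 := hF d.out ⟨M, hM⟩
    rw [hcd] at h3
    exact h4.mul h3.inv
  exact Subgroup.finiteIndex_of_finite_quotient

theorem le_stabM [N.Normal] : N ≤ stabM Λ A N := by
  intro n hn M _
  refine ⟨n⁻¹, N.inv_mem hn, ?_⟩
  rw [inv_mul_cancel]
  exact Maps.refl _

theorem mem_AS_sub (B : Subgroup G) {W : Set V} {x : B} (hA : ∀ v, A v ≤ B) :
    x ∈ AS (fun v => (A v).subgroupOf B) W ↔ (x : G) ∈ AS A W := by
  constructor
  · intro hx
    have h1 : AS (fun v => (A v).subgroupOf B) W ≤ (AS A W).subgroupOf B := by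
      apply AS_le
      intro v hv a ha
      exact le_AS (A := A) hv ha
    exact h1 hx
  · intro hx
    have h1 : AS A W ≤ (AS (fun v => (A v).subgroupOf B) W).map B.subtype := by
      apply AS_le
      intro v hv a ha
      exact ⟨⟨a, hA v ha⟩, le_AS (A := fun v => (A v).subgroupOf B) hv ha, rfl⟩
    obtain ⟨y, hy, hyx⟩ := h1 hx
    have h2 : y = x := Subtype.ext hyx
    rw [← h2]
    exact hy

end

/-- one step of the induction -/
theorem fin_step (hF : ClosedF C) {G : Type} [Group G] {V : Type} [Finite V] {Λ : SimpleGraph V}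
    {A : V → Subgroup G} {N : Subgroup G} [N.Normal] (h : GProd Λ A N) (hne : ∀ v, A v ≠ ⊥)
    (hFA : ∀ v, FA (A v)) (hgood : ∀ Δ : Set V, Λ.IsClique Δ → Good C (AS A Δ))
    (hQ : C (G ⧸ N)) {v0 : V} (hmax : ∀ w, cn Λ v0 ⊆ cn Λ w → cn Λ w = cn Λ v0)
    (hst : ∀ (g : G) (M : Set V), Maximal (fun s : Set V => Λ.IsClique s) M →
      Mv N g (AS A M) (AS A M))
    (ih : ∀ {G' : Type} [Group G'] {Λ' : SimpleGraph ↥(cls Λ v0)ᶜ}
      {A' : ↥(cls Λ v0)ᶜ → Subgroup G'} {N' : Subgroup G'} [N'.Normal], GProd Λ' A' N' →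
      (∀ v, A' v ≠ ⊥) → (∀ v, FA (A' v)) →
      (∀ Δ : Set ↥(cls Λ v0)ᶜ, Λ'.IsClique Δ → Good C (AS A' Δ)) → C (G' ⧸ N') → C G') : C G := by
  obtain ⟨p, hp⟩ := h.retr
  have hmv := star_mv h hmax hst
  have hrel := star_rel h v0
  obtain ⟨K, hK⟩ : ∃ K, K = nc N (fun _ : Unit => AS A (cls Λ v0)) := ⟨_, rfl⟩
  have hKn : K.Normal := by
    rw [hK]
    exact nc_normal fun g u => ⟨(), hmv g⟩
  have hKN : K ≤ N := by
    rw [hK]
    exact nc_le fun _ => AS_le_N h _
  have hK2 : K = nc N (fun u : {v // v ∉ (cls Λ v0)ᶜ} => A u) := by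
    rw [hK]
    apply le_antisymm
    · apply nc_le_of
      · intro n hn x hx
        exact nc_conj hn hx
      · intro _
        apply AS_le
        intro v hv
        exact le_nc (A := fun u : {v // v ∉ (cls Λ v0)ᶜ} => A u) ⟨v, fun e => e hv⟩
    · apply nc_le_of
      · intro n hn x hx
        exact nc_conj hn hx
      · intro u
        have h1 : u.1 ∈ cls Λ v0 := not_not.1 u.2
        exact (le_AS h1).trans (le_nc (A := fun _ : Unit => AS A (cls Λ v0)) ())
  -- the quotient map is injective on the remaining vertex groups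
  have hinj : ∀ x ∈ AS A (cls Λ v0)ᶜ, x ∈ K → x = 1 := by
    intro x hx hxK
    obtain ⟨ρ, hρ1, hρ2⟩ := ret h (cls Λ v0)ᶜ
    rw [hK2] at hxK
    have h1 := nc_hom (A := fun u : {v // v ∉ (cls Λ v0)ᶜ} => A u) (fun u => h.le u) ρ
      (fun u a ha => hρ1 u.1 u.2 a ha) hxK (AS_le_N h _ hx)
    rw [hρ2 x hx] at h1
    exact congrArg Subtype.val h1
  have hnor : (N.map (QuotientGroup.mk' K)).Normal :=
    Subgroup.Normal.map inferInstance _ (QuotientGroup.mk'_surjective K)
  have hGK : C (G ⧸ K) := by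
    refine ih (h.quot (cls Λ v0)ᶜ K hK2) ?_ ?_ ?_ ?_
    · intro w hbot
      apply hne w
      rw [Subgroup.eq_bot_iff_forall] at hbot ⊢
      intro a ha
      have h1 := hbot (QuotientGroup.mk' K a) ⟨a, ha, rfl⟩
      exact hinj a (le_AS w.2 ha) ((QuotientGroup.eq_one_iff a).1 h1)
    · intro w
      exact (hFA w).of_surjective ((QuotientGroup.mk' K).subgroupMap (A w))
        ((QuotientGroup.mk' K).subgroupMap_surjective (A w))
    · intro Δ hΔ
      have hΔ' : Λ.IsClique (Subtype.val '' Δ) := by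
        rintro _ ⟨i, hi, rfl⟩ _ ⟨j, hj, rfl⟩ hij
        exact hΔ hi hj (fun e => hij (congrArg Subtype.val e))
      have hsub : Subtype.val '' Δ ⊆ (cls Λ v0)ᶜ := by
        rintro _ ⟨i, _, rfl⟩
        exact i.2
      have himg : (AS A (Subtype.val '' Δ)).map (QuotientGroup.mk' K) =
          AS (fun w : ↥(cls Λ v0)ᶜ => (A w).map (QuotientGroup.mk' K)) Δ := by
        apply le_antisymm
        · rw [Subgroup.map_le_iff_le_comap]
          apply AS_le
          rintro _ ⟨i, hi, rfl⟩
          rw [← Subgroup.map_le_iff_le_comap]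
          exact le_AS (A := fun w : ↥(cls Λ v0)ᶜ => (A w).map (QuotientGroup.mk' K)) hi
        · apply AS_le
          intro i hi
          exact Subgroup.map_mono (le_AS (Set.mem_image_of_mem Subtype.val hi))
      rw [← himg]
      refine (hgood _ hΔ').of_equiv (MulEquiv.ofBijective
        ((QuotientGroup.mk' K).subgroupMap (AS A (Subtype.val '' Δ))) ⟨?_, ?_⟩)
      · rw [injective_iff_map_eq_one]
        intro x hx
        have h1 : QuotientGroup.mk' K x.1 = 1 := congrArg Subtype.val hx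
        exact Subtype.ext (hinj x.1 (AS_mono hsub x.2) ((QuotientGroup.eq_one_iff _).1 h1))
      · exact (QuotientGroup.mk' K).subgroupMap_surjective _
    · exact hF.base.base.of_injective _ (G ⧸ N)
        (QuotientGroup.quotientQuotientEquivQuotient K N hKN).toMonoidHom
        (QuotientGroup.quotientQuotientEquivQuotient K N hKN).injective hQ
  have hker := hrel.kernel
  have hbot : relG (⊥ : SimpleGraph Unit) (AS A (cls Λ v0)ᶜ)
      (fun _ => AS A (cn Λ v0 \ cls Λ v0)) = ⊥ := by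
    ext i j
    constructor
    · rintro ⟨h1, -⟩
      exact h1.elim
    · intro h1
      exact h1.elim
  rw [hbot, ← hK] at hker
  refine fp hF hker hGK (relA_ne fun u => ?_) ?_ (relA_cr fun u g hg => ?_)
  · intro hb
    apply hne v0
    rw [eq_bot_iff, ← hb]
    exact le_AS (self_cls v0)
  · intro g i
    rw [hK]
    exact hrel.perm (fun g _ => ⟨(), hmv g⟩) g i
  · exact (hgood _ ((cls_insert (self_cn v0)).subset (Set.subset_insert _ _))).cr g hg

/-- **kernels which are graph products over finite graphs** -/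
theorem fin_main (hF : ClosedF C) (n : ℕ) : ∀ {G : Type} [Group G] {V : Type} [Finite V]
    {Λ : SimpleGraph V} {A : V → Subgroup G} {N : Subgroup G} [N.Normal], Nat.card V = n →
    GProd Λ A N → (∀ v, A v ≠ ⊥) → (∀ v, FA (A v)) →
    (∀ Δ : Set V, Λ.IsClique Δ → Good C (AS A Δ)) → C (G ⧸ N) → C G := by
  induction n using Nat.strong_induction_on with
  | _ n ih =>
    intro G _ V _ Λ A N _ hn h hne hFA hgood hQ
    rcases isEmpty_or_nonempty V with hV | hV
    · have hN : N ≤ ⊥ := h.gen ⊥ (fun v => (hV.false v).elim)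
      refine hF.base.base.of_injective G (G ⧸ N) (QuotientGroup.mk' N) ?_ hQ
      rw [injective_iff_map_eq_one]
      intro x hx
      exact hN ((QuotientGroup.eq_one_iff x).1 hx)
    · obtain ⟨v0, hv0⟩ := exists_cn_max Λ
      have hidx := stabM_index h hne hFA
      refine hF.base.base.finiteIndex G (stabM Λ A N) hidx ?_
      have hNB : N ≤ stabM Λ A N := le_stabM
      have hAB : ∀ v, A v ≤ stabM Λ A N := fun v => (h.le v).trans hNB
      obtain ⟨B, hB⟩ : ∃ B, B = stabM Λ A N := ⟨_, rfl⟩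
      have hBst : ∀ g ∈ B, ∀ M : Set V, Maximal (fun s : Set V => Λ.IsClique s) M →
          Mv N g (AS A M) (AS A M) := by
        intro g hg
        rw [hB] at hg
        exact hg
      rw [← hB] at hNB hAB hidx ⊢
      have hQB : C (B ⧸ N.subgroupOf B) := by
        refine hF.base.base.of_injective _ (G ⧸ N) (QuotientGroup.map (N.subgroupOf B) N B.subtype
          (fun x hx => hx)) ?_ hQ
        rw [injective_iff_map_eq_one]
        intro x
        induction x using QuotientGroup.induction_on with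
        | H z =>
          intro hz
          have h1 : z.1 ∈ N := (QuotientGroup.eq_one_iff _).1 hz
          exact (QuotientGroup.eq_one_iff _).2 h1
      refine fin_step hF (h.sub B hNB) ?_ ?_ ?_ hQB hv0 ?_ ?_
      · intro v hv
        apply hne v
        rw [Subgroup.eq_bot_iff_forall] at hv ⊢
        intro a ha
        exact congrArg Subtype.val (hv ⟨a, hAB v ha⟩ ha)
      · intro v
        exact (hFA v).of_surjective (Subgroup.subgroupOfEquivOfLe (hAB v)).symm.toMonoidHom
          (Subgroup.subgroupOfEquivOfLe (hAB v)).symm.surjective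
      · intro Δ hΔ
        have h1 : (AS A Δ).subgroupOf B = AS (fun v => (A v).subgroupOf B) Δ := by
          ext x
          rw [mem_AS_sub B hAB]
          rfl
        rw [← h1]
        exact (hgood Δ hΔ).of_equiv
          (Subgroup.subgroupOfEquivOfLe ((AS_le_N h Δ).trans hNB)).symm
      · intro g M hM
        obtain ⟨m, hm, h1⟩ := hBst g.1 g.2 M hM
        refine ⟨⟨m, hNB hm⟩, hm, fun x => ?_⟩
        rw [mem_AS_sub B hAB, mem_AS_sub B hAB]
        exact h1 x
      · intro G' _ Λ' A' N' _ h1 h2 h3 h4 h5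
        refine ih _ ?_ rfl h1 h2 h3 h4 h5
        rw [← hn]
        exact Finite.card_subtype_lt (x := v0) (fun e => e (self_cls v0))

end Pool.Agent.Zk9.GK
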