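import Pool.Agent.Q30.FJ.GPf
import Pool.Agent.Zk9.GK.Fa

/-!
# Subgroups of graph products
-/

set_option autoImplicit false

namespace Pool.Agent.Zk9.GK

open Q30.FJ

section as

variable {G : Type} [Group G] {V : Type} {A : V → Subgroup G}

/-- the subgroup generated by the vertex groups in a set -/
def AS (A : V → Subgroup G) (W : Set V) : Subgroup G := ⨆ v : W, A v

theorem le_AS {W : Set V} {v : V} (hv : v ∈ W) : A v ≤ AS A W :=
  le_iSup (fun v : W => A v) ⟨v, hv⟩

theorem AS_le {W : Set V} {M : Subgroup G} (h : ∀ v ∈ W, A v ≤ M) : AS A W ≤ M :=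
  iSup_le fun v => h v v.2

theorem AS_mono {W W' : Set V} (h : W ⊆ W') : AS A W ≤ AS A W' :=
  AS_le fun _ hv => le_AS (h hv)

theorem AS_comm {W W' : Set V}
    (h : ∀ v ∈ W, ∀ w ∈ W', ∀ a ∈ A v, ∀ b ∈ A w, a * b = b * a) :
    ∀ a ∈ AS A W, ∀ b ∈ AS A W', a * b = b * a := by
  have h1 : ∀ v ∈ W, ∀ a ∈ A v, ∀ b ∈ AS A W', a * b = b * a := by
    intro v hv a ha b hb
    have h2 : AS A W' ≤ Subgroup.centralizer {a} := by
      apply AS_le
      intro w hw b hb
      rw [Subgroup.mem_centralizer_iff]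
      intro y hy
      rw [Set.mem_singleton_iff.1 hy]
      exact h v hv w hw a ha b hb
    exact Subgroup.mem_centralizer_iff.1 (h2 hb) a rfl
  intro a ha b hb
  have h2 : AS A W ≤ Subgroup.centralizer {b} := by
    apply AS_le
    intro v hv a ha
    rw [Subgroup.mem_centralizer_iff]
    intro y hy
    rw [Set.mem_singleton_iff.1 hy]
    exact (h1 v hv a ha b hb).symm
  exact (Subgroup.mem_centralizer_iff.1 (h2 ha) b rfl).symm

/-- two homomorphisms on `AS A W` which agree on the vertex groups -/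
theorem AS_hom {W : Set V} {H : Type} [Group H] (f g : AS A W →* H)
    (h : ∀ v (hv : v ∈ W) (a : G) (ha : a ∈ A v), f ⟨a, le_AS hv ha⟩ = g ⟨a, le_AS hv ha⟩) :
    f = g := by
  have h1 : AS A W ≤ (f.eqLocus g).map (AS A W).subtype := by
    apply AS_le
    intro v hv a ha
    exact ⟨⟨a, le_AS hv ha⟩, h v hv a ha, rfl⟩
  ext x
  obtain ⟨y, hy, hyx⟩ := h1 x.2
  have h2 : y = x := Subtype.ext hyx
  rw [← h2]
  exact hy

end as

variable {G : Type} [Group G] {V : Type} {Λ : SimpleGraph V} {A : V → Subgroup G}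
  {N : Subgroup G}

theorem AS_le_N (h : GProd Λ A N) (W : Set V) : AS A W ≤ N := AS_le fun v _ => h.le v

open Classical in
/-- the retraction to the subgroup generated by the vertex groups in a set -/
theorem ret (h : GProd Λ A N) (W : Set V) : ∃ ρ : N →* AS A W,
    (∀ v ∉ W, ∀ (a : G) (ha : a ∈ A v), ρ ⟨a, h.le v ha⟩ = 1) ∧
    ∀ (x : G) (hx : x ∈ AS A W), ρ ⟨x, AS_le_N h W hx⟩ = ⟨x, hx⟩ := by
  let f : ∀ v, A v →* AS A W := fun v =>
    if hv : v ∈ W then Subgroup.inclusion (le_AS hv) else 1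
  have hf1 : ∀ v (hv : v ∈ W) (a : G) (ha : a ∈ A v), f v ⟨a, ha⟩ = ⟨a, le_AS hv ha⟩ := by
    intro v hv a ha
    have : f v = Subgroup.inclusion (le_AS hv) := dif_pos hv
    rw [this]
    rfl
  have hf2 : ∀ v, v ∉ W → ∀ a : A v, f v a = 1 := by
    intro v hv a
    have : f v = 1 := dif_neg hv
    rw [this]
    rfl
  obtain ⟨φ, hφ⟩ := h.univ _ f (by
    intro v w hvw a b
    by_cases hv : v ∈ W
    · by_cases hw : w ∈ W
      · have e1 := hf1 v hv a.1 a.2
        have e2 := hf1 w hw b.1 b.2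
        have e3 : f v a = _ := e1
        have e4 : f w b = _ := e2
        rw [e3, e4]
        exact Subtype.ext (h.comm v w hvw a a.2 b b.2)
      · rw [hf2 w hw b, mul_one, one_mul]
    · rw [hf2 v hv a, mul_one, one_mul])
  refine ⟨φ, fun v hv a ha => (hφ v ⟨a, ha⟩).trans (hf2 v hv _), ?_⟩
  have h1 := AS_hom (A := A) (φ.comp (Subgroup.inclusion (AS_le_N h W))) (MonoidHom.id _)
    (fun v hv a ha => (hφ v ⟨a, ha⟩).trans (hf1 v hv a ha))
  exact fun x hx => DFunLike.congr_fun h1 ⟨x, hx⟩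

/-- the subgroup is a graph product -/
theorem restrict (h : GProd Λ A N) (W : Set V) :
    GProd (Λ.induce W) (fun w : W => A w) (AS A W) where
  le := fun w => le_AS w.2
  gen := fun M hM => AS_le fun v hv => hM ⟨v, hv⟩
  comm := fun v w hvw => h.comm v w hvw
  univ := by
    classical
    intro H _ f hf
    let f' : ∀ v, A v →* H := fun v => if hv : v ∈ W then f ⟨v, hv⟩ else 1
    have hf1 : ∀ v (hv : v ∈ W) (a : A v), f' v a = f ⟨v, hv⟩ a := by
      intro v hv a
      have : f' v = f ⟨v, hv⟩ := dif_pos hv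
      rw [this]
    have hf2 : ∀ v, v ∉ W → ∀ a : A v, f' v a = 1 := by
      intro v hv a
      have : f' v = 1 := dif_neg hv
      rw [this]
      rfl
    obtain ⟨φ, hφ⟩ := h.univ H f' (by
      intro v w hvw a b
      by_cases hv : v ∈ W
      · by_cases hw : w ∈ W
        · rw [hf1 v hv, hf1 w hw]
          exact hf ⟨v, hv⟩ ⟨w, hw⟩ hvw a b
        · rw [hf2 w hw b, mul_one, one_mul]
      · rw [hf2 v hv a, mul_one, one_mul])
    exact ⟨φ.comp (Subgroup.inclusion (AS_le_N h W)), fun v a => (hφ v a).trans (hf1 v v.2 a)⟩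

/-- an element of the product of a clique with trivial coordinates is trivial -/
theorem clique_one {p : ∀ v, N →* A v} (h : GProd Λ A N) (hp : Retr A N p) {M : Set V} (hM : M.Finite)
    (hc : Λ.IsClique M) {a : G} (ha : a ∈ AS A M) (haN : a ∈ N)
    (h1 : ∀ v ∈ M, p v ⟨a, haN⟩ = 1) : a = 1 := by
  classical
  have := hM.fintype
  have hcomm : Pairwise fun i j : M => ∀ x y : G, x ∈ A i → y ∈ A j → Commute x y := by
    intro i j hij x y hx hy
    exact h.comm i j (hc i.2 j.2 (fun e => hij (Subtype.ext e))) x hx y hy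
  have hr := Subgroup.noncommPiCoprod_range (H := fun i : M => A i) (hcomm := hcomm)
  have ha' : a ∈ (Subgroup.noncommPiCoprod hcomm).range := by
    rw [hr]
    exact ha
  obtain ⟨x, hx⟩ := ha'
  have hN : ∀ x, Subgroup.noncommPiCoprod hcomm x ∈ N := by
    intro x
    apply AS_le_N h M
    have : Subgroup.noncommPiCoprod hcomm x ∈ (Subgroup.noncommPiCoprod hcomm).range := ⟨x, rfl⟩
    rw [hr] at this
    exact this
  obtain ⟨F, hF⟩ : ∃ F : (∀ i : M, A i) →* N, ∀ x, (F x : G) = Subgroup.noncommPiCoprod hcomm x := by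
    refine ⟨MonoidHom.mk' (fun x => ⟨_, hN x⟩) ?_, fun x => rfl⟩
    intro x y
    exact Subtype.ext (map_mul _ _ _)
  have key : ∀ i : M, (p i).comp F = Pi.evalMonoidHom _ i := by
    intro i
    apply MonoidHom.pi_ext
    intro j y
    rw [MonoidHom.comp_apply, Pi.evalMonoidHom_apply]
    have h2 : F (Pi.mulSingle j y) = ⟨y, h.le j y.2⟩ := by
      apply Subtype.ext
      rw [hF, Subgroup.noncommPiCoprod_mulSingle]
    rw [h2]
    by_cases hij : j = i
    · subst hij
      rw [Pi.mulSingle_eq_same]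
      exact hp.same _ y
    · rw [Pi.mulSingle_eq_of_ne (Ne.symm hij)]
      exact hp.other _ _ y (fun e => hij (Subtype.ext e.symm))
  have hx1 : x = 1 := by
    funext i
    have h2 := DFunLike.congr_fun (key i) x
    rw [MonoidHom.comp_apply, Pi.evalMonoidHom_apply] at h2
    rw [← h2]
    have h3 : F x = ⟨a, haN⟩ := Subtype.ext ((hF x).trans hx)
    rw [h3]
    exact h1 i i.2
  rw [← hx, hx1, map_one]

/-- an element of the product of a clique lies in the product of its coordinates -/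
theorem clique_mem {p : ∀ v, N →* A v} (h : GProd Λ A N) (hp : Retr A N p) {M : Set V}
    (hM : M.Finite) (hc : Λ.IsClique M) (S : Set V) {a : G} (ha : a ∈ AS A M) (haN : a ∈ N)
    (h1 : ∀ v ∈ M, v ∉ S → p v ⟨a, haN⟩ = 1) : a ∈ AS A S := by
  obtain ⟨ρ, hρ1, hρ2⟩ := ret h S
  have hle := AS_le_N h S
  -- `ρ a` is in `AS A (M ∩ S)`
  have h2 : ∀ x (hx : x ∈ AS A M), (ρ ⟨x, AS_le_N h M hx⟩ : G) ∈ AS A M := by
    have h3 : AS A M ≤ ((AS A M).comap ((AS A S).subtype.comp ρ)).map N.subtype := by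
      apply AS_le
      intro v hv b hb
      refine ⟨⟨b, h.le v hb⟩, ?_, rfl⟩
      show (ρ ⟨b, h.le v hb⟩ : G) ∈ AS A M
      by_cases hvS : v ∈ S
      · have h4 : ρ ⟨b, h.le v hb⟩ = ⟨b, le_AS hvS hb⟩ := hρ2 b (le_AS hvS hb)
        rw [h4]
        exact le_AS hv hb
      · rw [hρ1 v hvS b hb]
        exact Subgroup.one_mem _
    intro x hx
    obtain ⟨y, hy, hyx⟩ := h3 hx
    have h4 : y = ⟨x, AS_le_N h M hx⟩ := Subtype.ext hyx
    rw [← h4]
    exact hy
  -- coordinates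
  have h3 : ∀ v ∈ S, ∀ x : N, p v ⟨ρ x, hle (ρ x).2⟩ = p v x := by
    intro v hv x
    have h4 : (p v).comp ((Subgroup.inclusion hle).comp ρ) = p v := by
      apply hp.hom_eq
      intro w b
      show p v ⟨ρ ⟨b, h.le w b.2⟩, _⟩ = p v ⟨b, h.le w b.2⟩
      by_cases hw : w ∈ S
      · have h5 : ρ ⟨b, h.le w b.2⟩ = ⟨b, le_AS hw b.2⟩ := hρ2 b (le_AS hw b.2)
        rw [h5]
      · have h5 := hρ1 w hw b b.2
        have hvw : v ≠ w := fun e => hw (e ▸ hv)
        rw [h5]
        have h6 : p v ⟨b, h.le w b.2⟩ = 1 := hp.other v w b hvw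
        rw [h6]
        exact map_one (p v)
    exact DFunLike.congr_fun h4 x
  have h4 : ∀ v ∉ S, ∀ x : G, ∀ hx : x ∈ AS A S, p v ⟨x, hle hx⟩ = 1 := by
    intro v hv x hx
    have h5 := AS_hom (A := A) (W := S) ((p v).comp (Subgroup.inclusion hle)) 1 (by
      intro w hw b hb
      exact hp.other v w ⟨b, hb⟩ (fun e => hv (e ▸ hw)))
    exact DFunLike.congr_fun h5 ⟨x, hx⟩
  obtain ⟨d, hd⟩ : ∃ d, d = (ρ ⟨a, haN⟩ : G) := ⟨_, rfl⟩
  have hdS : d ∈ AS A S := by rw [hd]; exact (ρ _).2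
  have hdM : d ∈ AS A M := by rw [hd]; exact h2 a ha
  have hdN : d ∈ N := hle hdS
  have h5 : d⁻¹ * a = 1 := by
    refine clique_one h hp hM hc ((AS A M).mul_mem ((AS A M).inv_mem hdM) ha)
      (N.mul_mem (N.inv_mem hdN) haN) ?_
    intro v hv
    have e1 : (⟨d⁻¹ * a, N.mul_mem (N.inv_mem hdN) haN⟩ : N) = ⟨d, hdN⟩⁻¹ * ⟨a, haN⟩ := rfl
    rw [e1, map_mul, map_inv, inv_mul_eq_one]
    by_cases hvS : v ∈ S
    · have h6 := h3 v hvS ⟨a, haN⟩
      rw [← h6]
      congr 1
      exact Subtype.ext hd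
    · rw [h4 v hvS d hdS, h1 v hv hvS]
  rw [inv_mul_eq_one] at h5
  rw [← h5]
  exact hdS

end Pool.Agent.Zk9.GK
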