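import Pool.Agent.Zk9.GK.Comp

/-!
# Kernels which are graph products over graphs with finite components, times a free factor
-/

set_option autoImplicit false

namespace Pool.Agent.Zk9.GK

open Q30.FJ Pool.Agent.Y110.FJ Pool.Agent.Helper705_SA Pool.Agent.Helper270.Tree
open Pool.Agent.Y462.SS (Closed)

variable {C : ∀ (G : Type) [Group G], Prop}

theorem cyc_mem (hC : Closed C) (H : Type) [Group H] [IsCyclic H] : C H := by
  rcases finite_or_infinite H with h | h
  · exact finite_mem hC H
  · obtain ⟨g, hg⟩ := IsCyclic.exists_generator (α := H)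
    have hinj : Function.Injective (zpowersHom H g) := by
      rw [injective_iff_map_eq_one]
      intro k hk
      by_contra hk1
      have h1 : g ^ (Multiplicative.toAdd k) = 1 := hk
      have h2 : IsOfFinOrder g := by
        rw [isOfFinOrder_iff_zpow_eq_one]
        exact ⟨_, fun e => hk1 e, h1⟩
      have h3 : Finite H := by
        have h4 : Finite (Subgroup.zpowers g) := (finite_zpowers.2 h2).to_subtype
        exact Finite.of_surjective (fun x : Subgroup.zpowers g => (x : H)) fun y => ⟨⟨y, hg y⟩, rfl⟩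
      exact not_finite H
    have hsurj : Function.Surjective (zpowersHom H g) := by
      intro y
      obtain ⟨k, hk⟩ := Subgroup.mem_zpowers_iff.1 (hg y)
      exact ⟨Multiplicative.ofAdd k, hk⟩
    refine hC.of_injective H (Multiplicative ℤ)
      (MulEquiv.ofBijective (zpowersHom H g) ⟨hinj, hsurj⟩).symm.toMonoidHom ?_ hC.int
    exact (MulEquiv.ofBijective (zpowersHom H g) ⟨hinj, hsurj⟩).symm.injective

section

variable {G : Type} [Group G] {V J : Type} {Λ : SimpleGraph V} {A : V → Subgroup G}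
  {x : J → G} {N : Subgroup G}

theorem AS_singleton {I : Type} (B : I → Subgroup G) (i : I) : AS B {i} = B i := by
  apply le_antisymm
  · apply AS_le
    intro v hv
    rw [Set.mem_singleton_iff.1 hv]
  · exact le_AS rfl

/-- the subgroups generated by vertex groups -/
theorem freeRestrict (h : GFree Λ A x N) (W : Set V) :
    GProd (Λ.induce W) (fun w : W => A w) (AS A W) where
  le := fun w => le_AS w.2
  gen := fun M hM => AS_le fun v hv => hM ⟨v, hv⟩
  comm := fun v w hvw => h.comm v w hvw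
  univ := by
    classical
    intro H _ f hf
    let f' : ∀ v, A v →* H := fun v => if hv : v ∈ W then f ⟨v, hv⟩ else 1
    have hf1 : ∀ v (hv : v ∈ W) (a : A v), f' v a = f ⟨v, hv⟩ a := by
      intro v hv a
      have : f' v = f ⟨v, hv⟩ := dif_pos hv
      rw [this]
    have hf2 : ∀ v, v ∉ W → ∀ a : A v, f' v a = 1 := by
      intro v hv a
      have : f' v = 1 := dif_neg hv
      rw [this]
      rfl
    obtain ⟨φ, hφ, -⟩ := h.univ H f' (fun _ => 1) (by
      intro v w hvw a b
      by_cases hv : v ∈ W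
      · by_cases hw : w ∈ W
        · rw [hf1 v hv, hf1 w hw]
          exact hf ⟨v, hv⟩ ⟨w, hw⟩ hvw a b
        · rw [hf2 w hw b, mul_one, one_mul]
      · rw [hf2 v hv a, mul_one, one_mul])
    have hle : AS A W ≤ N := AS_le fun v _ => h.le v
    exact ⟨φ.comp (Subgroup.inclusion hle), fun v a => (hφ v a).trans (hf1 v v.2 a)⟩

/-- the decomposition in components -/
theorem freeComp (h : GFree Λ A x N) :
    GFree (⊥ : SimpleGraph Λ.ConnectedComponent) (fun c => AS A c.supp) x N where
  le := fun c => AS_le fun v _ => h.le v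
  mem := h.mem
  gen := by
    intro M hM hx
    refine h.gen M (fun v => ?_) hx
    exact (le_AS (show v ∈ (Λ.connectedComponentMk v).supp from rfl)).trans (hM _)
  comm := fun v w hvw => hvw.elim
  univ := by
    intro H _ f y _
    have hf : ∀ (c : Λ.ConnectedComponent) (v : V) (hv : v ∈ c.supp) (a : G) (ha : a ∈ A v),
        f c ⟨a, le_AS hv ha⟩ = f (Λ.connectedComponentMk v)
          ⟨a, le_AS (show v ∈ (Λ.connectedComponentMk v).supp from rfl) ha⟩ := by
      intro c v hv a ha
      have h1 : Λ.connectedComponentMk v = c := hv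
      subst h1
      rfl
    obtain ⟨φ, hφ, hφx⟩ := h.univ H (fun v => (f (Λ.connectedComponentMk v)).comp
      (Subgroup.inclusion (le_AS (show v ∈ (Λ.connectedComponentMk v).supp from rfl)))) y (by
        intro v w hvw a b
        show f _ ⟨a, _⟩ * f _ ⟨b, _⟩ = f _ ⟨b, _⟩ * f _ ⟨a, _⟩
        have hw : w ∈ (Λ.connectedComponentMk v).supp :=
          SimpleGraph.ConnectedComponent.sound hvw.symm.reachable
        rw [← hf (Λ.connectedComponentMk v) w hw b b.2, ← map_mul, ← map_mul]
        congr 1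
        exact Subtype.ext (h.comm v w hvw a a.2 b b.2))
    refine ⟨φ, ?_, hφx⟩
    intro c
    have hle : AS A c.supp ≤ N := AS_le fun v _ => h.le v
    have h1 := AS_hom (A := A) (W := c.supp) (φ.comp (Subgroup.inclusion hle)) (f c)
      (fun v hv a ha => (hφ v ⟨a, ha⟩).trans (hf c v hv a ha).symm)
    exact fun a => DFunLike.congr_fun h1 a

/-- infinite cyclic vertex groups -/
theorem freeSum {I : Type} {B : I → Subgroup G} (h : GFree (⊥ : SimpleGraph I) B x N) :
    GProd (⊥ : SimpleGraph (I ⊕ J)) (Sum.elim B (fun j => Subgroup.zpowers (x j))) N where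
  le := by
    rintro (i | j)
    · exact h.le i
    · exact (Subgroup.zpowers_le).2 (h.mem j)
  gen := by
    intro M hM
    exact h.gen M (fun i => hM (Sum.inl i))
      (fun j => hM (Sum.inr j) (Subgroup.mem_zpowers (x j)))
  comm := fun v w hvw => hvw.elim
  univ := by
    intro H _ f _
    obtain ⟨φ, hφ, hφx⟩ := h.univ H (fun i => f (Sum.inl i))
      (fun j => f (Sum.inr j) ⟨x j, Subgroup.mem_zpowers (x j)⟩) (fun v w hvw => hvw.elim)
    refine ⟨φ, ?_⟩
    rintro (i | j)
    · exact hφ i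
    · rintro ⟨a, ha⟩
      obtain ⟨k, rfl⟩ := Subgroup.mem_zpowers_iff.1 ha
      have h1 : φ ⟨x j ^ k, N.zpow_mem (h.mem j) k⟩ = (φ ⟨x j, h.mem j⟩) ^ k := by
        rw [← map_zpow]
        rfl
      have h2 : f (Sum.inr j) ⟨x j ^ k, ha⟩ =
          (f (Sum.inr j) ⟨x j, Subgroup.mem_zpowers (x j)⟩) ^ k := by
        rw [← map_zpow]
        rfl
      exact h1.trans ((congrArg (· ^ k) (hφx j)).trans h2.symm)

open Classical in
/-- the coordinates of the free factor -/
theorem free_coord (h : GFree Λ A x N) (j : J) : ∃ φ : N →* Multiplicative ℤ,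
    φ ⟨x j, h.mem j⟩ = Multiplicative.ofAdd 1 := by
  obtain ⟨φ, -, hφ⟩ := h.univ (Multiplicative ℤ) (fun _ => 1)
    (fun i => if i = j then Multiplicative.ofAdd 1 else 1) (fun v w _ a b => rfl)
  exact ⟨φ, (hφ j).trans (if_pos rfl)⟩

theorem zpow_one_of (h : GFree Λ A x N) (j : J) {k : ℤ} (φ : N →* Multiplicative ℤ)
    (hφ : φ ⟨x j, h.mem j⟩ = Multiplicative.ofAdd 1)
    (hk : φ ⟨x j ^ k, N.zpow_mem (h.mem j) k⟩ = 1) : k = 0 := by
  have h1 : φ ⟨x j ^ k, N.zpow_mem (h.mem j) k⟩ = (φ ⟨x j, h.mem j⟩) ^ k := by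
    rw [← map_zpow]
    rfl
  rw [h1, hφ, ← ofAdd_zsmul, smul_eq_mul, mul_one] at hk
  exact hk

/-- the components are permuted -/
theorem comp_perm [N.Normal] (h : GFree Λ A x N) (hfin : ∀ c : Λ.ConnectedComponent, c.supp.Finite)
    (hne : ∀ v, A v ≠ ⊥) (hFA : ∀ v, FA (A v)) (hFG : ∀ v, Group.FG (A v)) (g : G)
    (c : Λ.ConnectedComponent) :
    ∃ c' : Λ.ConnectedComponent, Mv N g (AS A c.supp) (AS A c'.supp) := by
  have hB := freeSum (freeComp h)
  obtain ⟨B, hBd⟩ : ∃ B : Λ.ConnectedComponent ⊕ J → Subgroup G,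
    B = Sum.elim (fun c => AS A c.supp) (fun j => Subgroup.zpowers (x j)) := ⟨_, rfl⟩
  rw [← hBd] at hB
  have hBl : ∀ c : Λ.ConnectedComponent, B (Sum.inl c) = AS A c.supp := by
    intro c
    rw [hBd]
    rfl
  have hBr : ∀ j, B (Sum.inr j) = Subgroup.zpowers (x j) := by
    intro j
    rw [hBd]
    rfl
  have hne1 : ∀ c : Λ.ConnectedComponent, ∃ v ∈ c.supp, ∃ a ∈ A v, a ≠ 1 := by
    intro c
    obtain ⟨v0, hv0⟩ := c.nonempty_supp
    obtain ⟨⟨a, ha⟩, ha1⟩ := Subgroup.ne_bot_iff_exists_ne_one.1 (hne v0)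
    exact ⟨v0, hv0, a, ha, fun e => ha1 (Subtype.ext e)⟩
  have hneB : ∀ i, B i ≠ ⊥ := by
    rintro (c | j) hb
    · obtain ⟨v, hv, a, ha, ha1⟩ := hne1 c
      rw [hBl, Subgroup.eq_bot_iff_forall] at hb
      exact ha1 (hb a (le_AS hv ha))
    · rw [hBr, Subgroup.eq_bot_iff_forall] at hb
      obtain ⟨φ, hφ⟩ := free_coord h j
      have h1 := hb (x j) (Subgroup.mem_zpowers _)
      have h2 : φ ⟨x j ^ (1 : ℤ), N.zpow_mem (h.mem j) 1⟩ = 1 := by
        have h3 : (⟨x j ^ (1 : ℤ), N.zpow_mem (h.mem j) 1⟩ : N) = 1 := by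
          apply Subtype.ext
          show x j ^ (1 : ℤ) = 1
          rw [h1, one_zpow]
        rw [h3, map_one]
      exact one_ne_zero (zpow_one_of h j φ hφ h2)
  -- the images of the components
  have key : ∀ (g : G) (c : Λ.ConnectedComponent), ∃ c' : Λ.ConnectedComponent,
      Cj N B g {Sum.inl c} {Sum.inl c'} := by
    intro g c
    have hle : AS A c.supp ≤ N := AS_le fun v _ => h.le v
    have hc : ∀ x : AS A c.supp, g * x * g⁻¹ ∈ N := fun x =>
      Subgroup.Normal.conj_mem inferInstance _ (hle x.2) g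
    have hfg : Group.FG (AS A c.supp) := by
      have := (hfin c).to_subtype
      rw [Group.fg_iff_subgroup_fg]
      exact Subgroup.FG.iSup _ fun v => (Group.fg_iff_subgroup_fg _).1 (hFG v)
    obtain ⟨f, hf⟩ : ∃ f : AS A c.supp →* N, ∀ x, (f x : G) = g * x * g⁻¹ := by
      refine ⟨MonoidHom.mk' (fun x => (⟨g * x * g⁻¹, hc x⟩ : N)) ?_, fun x => rfl⟩
      intro x y
      apply Subtype.ext
      show g * (x.1 * y.1) * g⁻¹ = g * x * g⁻¹ * (g * y * g⁻¹)
      group
    have hfi : Function.Injective f := by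
      intro x y hxy
      have h1 := congrArg Subtype.val hxy
      rw [hf, hf] at h1
      exact Subtype.ext (mul_left_cancel (mul_right_cancel h1))
    obtain ⟨Δ, hΔ, m, hm, h1⟩ := fi_conj hB (FI_AS h.comm hne hFA c) hfg f hfi
    have h1' : ∀ x ∈ AS A c.supp, m * g * x * (m * g)⁻¹ ∈ AS B Δ := by
      intro x hx
      have h2 := h1 ⟨x, hx⟩
      rw [hf] at h2
      have h3 : m * (g * x * g⁻¹) * m⁻¹ = m * g * x * (m * g)⁻¹ := by group
      rwa [h3] at h2
    obtain ⟨v, hv, a, ha, ha1⟩ := hne1 c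
    have hΔne : Δ.Nonempty := by
      rw [Set.nonempty_iff_ne_empty]
      rintro rfl
      have h2 := h1' a (le_AS hv ha)
      have h3 : AS B ∅ = ⊥ := by
        rw [eq_bot_iff]
        exact AS_le fun v hv => hv.elim
      rw [h3, Subgroup.mem_bot, conj_eq_one_iff] at h2
      exact ha1 h2
    obtain ⟨i, hi⟩ := hΔne
    have hΔi : Δ ⊆ {i} := by
      intro j hj
      by_contra hji
      exact hΔ hj hi hji
    have h2 : ∀ x ∈ AS A c.supp, m * g * x * (m * g)⁻¹ ∈ B i := by
      intro x hx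
      have h3 := AS_mono hΔi (h1' x hx)
      rwa [AS_singleton] at h3
    rcases i with c' | j
    · refine ⟨c', m, hm, fun x hx => ?_⟩
      rw [AS_singleton, hBl] at hx
      rw [AS_singleton]
      exact h2 x hx
    · exfalso
      obtain ⟨φ, hφ⟩ := free_coord h j
      have hN : ∀ b : A v, m * g * b * (m * g)⁻¹ ∈ N := by
        intro b
        exact hB.le _ (h2 b (le_AS hv b.2))
      have h3 := (hFA v).hom_int (φ.comp (MonoidHom.mk' (fun b => (⟨m * g * b * (m * g)⁻¹, hN b⟩ : N))
        (by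
          intro b b'
          apply Subtype.ext
          show m * g * (b.1 * b'.1) * (m * g)⁻¹ = m * g * b * (m * g)⁻¹ * (m * g * b' * (m * g)⁻¹)
          group))) ⟨a, ha⟩
      have h4 : φ ⟨m * g * a * (m * g)⁻¹, hN ⟨a, ha⟩⟩ = 1 := h3
      have h5 := h2 a (le_AS hv ha)
      rw [hBr, Subgroup.mem_zpowers_iff] at h5
      obtain ⟨k, hk⟩ := h5
      have h6 : (⟨m * g * a * (m * g)⁻¹, hN ⟨a, ha⟩⟩ : N) =
        ⟨x j ^ k, N.zpow_mem (h.mem j) k⟩ := Subtype.ext hk.symm
      rw [h6] at h4
      have h7 := zpow_one_of h j φ hφ h4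
      rw [h7, zpow_zero] at hk
      exact ha1 (conj_eq_one_iff.1 hk.symm)
  obtain ⟨c', h1⟩ := key g c
  obtain ⟨c'', h2⟩ := key g⁻¹ c'
  have h3 := h1.mul h2
  rw [inv_mul_cancel] at h3
  have h4 := Cj_sub hB hneB h3 rfl
  have h5 : c = c'' := Sum.inl_injective h4
  subst h5
  refine ⟨c', ?_⟩
  have h6 := h1.maps hB h2
  rw [AS_singleton, AS_singleton, hBl, hBl] at h6
  exact h6

end

theorem good_sub {G : Type} [Group G] {V : Type} {A : V → Subgroup G} (B : Subgroup G)
    (hB : ∀ v, A v ≤ B) (Δ : Set V) (h : Good C (AS A Δ)) :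
    Good C (AS (fun v => (A v).subgroupOf B) Δ) := by
  have h1 : (AS A Δ).subgroupOf B = AS (fun v => (A v).subgroupOf B) Δ := by
    ext x
    rw [mem_AS_sub B hB]
    rfl
  rw [← h1]
  exact h.of_equiv (Subgroup.subgroupOfEquivOfLe (AS_le fun v _ => hB v)).symm

/-- **the general theorem** -/
theorem comp_main (hF : ClosedF C) {G : Type} [Group G] {V J : Type} {Λ : SimpleGraph V}
    {A : V → Subgroup G} {x : J → G} {N : Subgroup G} [N.Normal] (h : GFree Λ A x N)
    (hfin : ∀ c : Λ.ConnectedComponent, c.supp.Finite) (hne : ∀ v, A v ≠ ⊥)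
    (hFA : ∀ v, FA (A v)) (hFG : ∀ v, Group.FG (A v))
    (hgood : ∀ Δ : Set V, Λ.IsClique Δ → Good C (AS A Δ)) (hQ : C (G ⧸ N)) : C G := by
  refine gfree_main hF (freeComp h) hQ ?_ ?_ ?_ ?_
  · intro c hb
    obtain ⟨v0, hv0⟩ := c.nonempty_supp
    apply hne v0
    rw [eq_bot_iff, ← hb]
    exact le_AS hv0
  · intro g c
    exact comp_perm h hfin hne hFA hFG g c
  · intro g c
    exact ⟨1, one_pos, fun m w _ hadj => hadj⟩
  · intro c g hg
    obtain ⟨W, hW⟩ : ∃ W, W = AS A c.supp := ⟨_, rfl⟩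
    rw [← hW] at hg ⊢
    obtain ⟨P, hP⟩ : ∃ P, P = W ⊔ Subgroup.zpowers g := ⟨_, rfl⟩
    have hWP : W ≤ P := by
      rw [hP]
      exact le_sup_left
    have hgP : g ∈ P := by
      rw [hP]
      exact Subgroup.mem_sup_right (Subgroup.mem_zpowers g)
    rw [← hP]
    have hnorm : P ≤ Subgroup.normalizer (W : Set G) := by
      rw [hP]
      apply sup_le Subgroup.le_normalizer
      rw [Subgroup.zpowers_le, Subgroup.mem_normalizer_iff]
      exact hg
    have hWn : (W.subgroupOf P).Normal := by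
      constructor
      intro w hw p
      exact (Subgroup.mem_normalizer_iff.1 (hnorm p.2) w.1).1 hw
    have hAP : ∀ v : c.supp, A v ≤ P := fun v => by
      refine le_trans ?_ hWP
      rw [hW]
      exact le_AS v.2
    have := (hfin c).to_subtype
    have hgp : GProd (Λ.induce c.supp) (fun v : c.supp => (A v).subgroupOf P) (W.subgroupOf P) := by
      have h1 := freeRestrict h c.supp
      rw [← hW] at h1
      exact h1.sub P hWP
    refine fin_main hF _ rfl hgp ?_ ?_ ?_ ?_
    · intro v hv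
      apply hne v
      rw [Subgroup.eq_bot_iff_forall] at hv ⊢
      intro a ha
      exact congrArg Subtype.val (hv ⟨a, hAP v ha⟩ ha)
    · intro v
      exact (hFA v).of_surjective (Subgroup.subgroupOfEquivOfLe (hAP v)).symm.toMonoidHom
        (Subgroup.subgroupOfEquivOfLe (hAP v)).symm.surjective
    · intro Δ hΔ
      refine good_sub (A := fun v : c.supp => A v) P hAP Δ ?_
      have h1 : AS (fun v : c.supp => A v) Δ = AS A (Subtype.val '' Δ) := by
        apply le_antisymm
        · apply AS_le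
          intro i hi
          exact le_AS (A := A) (Set.mem_image_of_mem Subtype.val hi)
        · apply AS_le
          rintro _ ⟨i, hi, rfl⟩
          exact le_AS (A := fun v : c.supp => A v) hi
      rw [h1]
      apply hgood
      rintro _ ⟨i, hi, rfl⟩ _ ⟨j, hj, rfl⟩ hij
      exact hΔ hi hj (fun e => hij (congrArg Subtype.val e))
    · have hcyc : IsCyclic (P ⧸ W.subgroupOf P) := by
        refine ⟨⟨QuotientGroup.mk' _ ⟨g, hgP⟩, ?_⟩⟩
        intro y
        obtain ⟨p, rfl⟩ := QuotientGroup.mk'_surjective _ y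
        have h1 : P ≤ ((Subgroup.zpowers (QuotientGroup.mk' (W.subgroupOf P) ⟨g, hgP⟩)).comap
            (QuotientGroup.mk' (W.subgroupOf P))).map P.subtype := by
          conv_lhs => rw [hP]
          apply sup_le
          · intro w hw
            refine ⟨⟨w, hWP hw⟩, ?_, rfl⟩
            have h2 : QuotientGroup.mk' (W.subgroupOf P) ⟨w, hWP hw⟩ = 1 :=
              (QuotientGroup.eq_one_iff _).2 hw
            rw [SetLike.mem_coe, Subgroup.mem_comap, h2]
            exact Subgroup.one_mem _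
          · rw [Subgroup.zpowers_le]
            exact ⟨⟨g, hgP⟩, Subgroup.mem_zpowers _, rfl⟩
        obtain ⟨q, hq, hqp⟩ := h1 p.2
        have h2 : q = p := Subtype.ext hqp
        rw [← h2]
        exact hq
      exact cyc_mem hF.base.base _

end Pool.Agent.Zk9.GK
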